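import Pool.Agent.Work.MP_72041b_co.LV.Stmts

set_option autoImplicit false

namespace Pool.Agent.Potatoes.LV

open MeasureTheory Set Metric
open scoped RealInnerProductSpace Pointwise

namespace AuxBliI

lemma intg (k : ℕ) (hk : 0 < k) (ρ : ℝ) (hρ : 0 < ρ) (h2 : ρ ^ 2 = 1 / 2) :
    ∫ y in Ioi (0 : ℝ), y ^ (k - 1) • max (1 - 2 * y ^ 2) 0 =
      ρ ^ k * (2 / ((k : ℝ) * ((k : ℝ) + 2))) := by
  obtain ⟨n, rfl⟩ : ∃ n, k = n + 1 := ⟨k - 1, by omega⟩
  have e1 : ∫ y in Ioi (0 : ℝ), y ^ (n + 1 - 1) • max (1 - 2 * y ^ 2) 0 =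
      ∫ y in Ioc (0 : ℝ) ρ, y ^ (n + 1 - 1) • max (1 - 2 * y ^ 2) 0 := by
    apply setIntegral_eq_of_subset_of_forall_sdiff_eq_zero measurableSet_Ioi
      Ioc_subset_Ioi_self
    intro y hy
    have hy0 : 0 < y := hy.1
    have hyρ : ρ < y := by
      by_contra hc
      exact hy.2 ⟨hy0, not_lt.1 hc⟩
    have : 1 - 2 * y ^ 2 ≤ 0 := by nlinarith
    rw [max_eq_right this, smul_zero]
  have e2 : ∫ y in Ioc (0 : ℝ) ρ, y ^ (n + 1 - 1) • max (1 - 2 * y ^ 2) 0 =
      ∫ y in Ioc (0 : ℝ) ρ, (y ^ n - 2 * y ^ (n + 2)) := by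
    apply setIntegral_congr_fun measurableSet_Ioc
    intro y hy
    have : 0 ≤ 1 - 2 * y ^ 2 := by nlinarith [hy.1, hy.2]
    simp only [Nat.add_sub_cancel, smul_eq_mul]
    rw [max_eq_left this]
    ring
  rw [e1, e2, ← intervalIntegral.integral_of_le hρ.le, intervalIntegral.integral_sub
    (by apply Continuous.intervalIntegrable; fun_prop)
    (by apply Continuous.intervalIntegrable; fun_prop),
    intervalIntegral.integral_const_mul, integral_pow, integral_pow]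
  have h3 : ρ ^ (n + 2 + 1) = ρ ^ (n + 1) * (1 / 2) := by
    rw [← h2]; ring
  rw [h3]
  push_cast
  have a1 : (n : ℝ) + 1 ≠ 0 := by positivity
  have a2 : (n : ℝ) + 1 + 2 ≠ 0 := by positivity
  have a3 : (n : ℝ) + 2 + 1 ≠ 0 := by positivity
  rw [zero_pow (by omega), zero_pow (by omega)]
  field_simp
  ring

end AuxBliI

open AuxBliI in
theorem pr_BliI : S_BliI := by
  intro k hk
  have : Nonempty (Fin k) := ⟨⟨0, hk⟩⟩
  have hρ : (0 : ℝ) < √2 / 2 := by positivity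
  have h2 : (√2 / 2 : ℝ) ^ 2 = 1 / 2 := by
    rw [div_pow, Real.sq_sqrt (by norm_num)]; norm_num
  have h := integral_fun_norm_addHaar (volume : Measure (E k))
    (fun y : ℝ => max (1 - 2 * y ^ 2) 0)
  simp only [finrank_euclideanSpace, Fintype.card_fin] at h
  rw [h, intg k hk _ hρ h2]
  have hb : volume.real (ball (0 : E k) (1 / 2)) = (1 / 2) ^ k * volume.real (ball (0 : E k) 1) := by
    rw [measureReal_def, Measure.addHaar_ball _ _ (by norm_num), ENNReal.toReal_mul,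
      finrank_euclideanSpace, Fintype.card_fin, ENNReal.toReal_ofReal (by positivity), measureReal_def]
  rw [hb, nsmul_eq_mul, smul_eq_mul, div_pow, div_pow, one_pow]
  have hk' : (k : ℝ) ≠ 0 := by positivity
  have a2 : (k : ℝ) + 2 ≠ 0 := by positivity
  field_simp

end Pool.Agent.Potatoes.LV
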