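import Pool.Agent.Work.MP_72041b_co.LV.Stmts

/-!
# MP_72041b_co, block LV, item Bx: packing boxes with edges in `{1, ρ, ρ², …}`
-/

set_option autoImplicit false

namespace Pool.Agent.Potatoes.LV

open MeasureTheory Set Metric
open scoped RealInnerProductSpace Pointwise

namespace AuxBx

/-- one-dimensional stacking without a prescribed order -/
lemma stk (ι : Type) [Countable ι] (h : ι → ℝ) (hpos : ∀ i, 0 < h i) (hsum : Summable h) :
    ∃ q : ι → ℝ, (∀ i, 0 ≤ q i ∧ q i + h i ≤ ∑' j, h j) ∧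
      ∀ i i', i ≠ i' → q i + h i ≤ q i' ∨ q i' + h i' ≤ q i := by
  obtain ⟨e, he⟩ := Countable.exists_injective_nat ι
  let _ : LinearOrder ι := LinearOrder.lift' e he
  obtain ⟨q, -, hq0, -, hqle, hqlt⟩ := claimStack ι h hpos hsum
  refine ⟨q, fun i => ⟨hq0 i, hqle i⟩, fun i i' hne => ?_⟩
  rcases lt_or_gt_of_ne hne with hlt | hlt
  · exact Or.inl (hqlt i i' hlt)
  · exact Or.inr (hqlt i' i hlt)

/-- grouping by prefix sums -/
lemma grp (ι : Type) [Countable ι] (w : ι → ℝ) (hw : ∀ i, 0 < w i ∧ w i ≤ 1)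
    (hs : Summable w) (D : ℝ) (hD : 0 < D) :
    ∃ g : ι → ℕ, (∀ i, (g i : ℝ) * D ≤ ∑' j, w j) ∧
      ∀ n : ℕ, ∑' i : {i // g i = n}, w i.1 ≤ D + 1 := by
  classical
  obtain ⟨e, he⟩ := Countable.exists_injective_nat ι
  let _ : LinearOrder ι := LinearOrder.lift' e he
  obtain ⟨q, hqdef, hq0, -, hqle, hqlt⟩ := claimStack ι w (fun i => (hw i).1) hs
  have hif : ∀ i : ι, Summable (fun j : ι => if j < i then w j else 0) := by
    intro i
    refine Summable.of_nonneg_of_le (fun j => ?_) (fun j => ?_) hs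
    · split_ifs
      · exact (hw j).1.le
      · exact le_refl 0
    · split_ifs
      · exact le_refl _
      · exact (hw j).1.le
  refine ⟨fun i => ⌊q i / D⌋₊, fun i => ?_, fun n => ?_⟩
  · have h1 : ((⌊q i / D⌋₊ : ℕ) : ℝ) ≤ q i / D := Nat.floor_le (div_nonneg (hq0 i) hD.le)
    have h2 : ((⌊q i / D⌋₊ : ℕ) : ℝ) * D ≤ q i / D * D := mul_le_mul_of_nonneg_right h1 hD.le
    rw [div_mul_cancel₀ _ hD.ne'] at h2
    have h3 := hqle i
    have h4 := (hw i).1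
    show ((⌊q i / D⌋₊ : ℕ) : ℝ) * D ≤ _
    linarith
  · refine Real.tsum_le_of_sum_le (fun i => (hw i.1).1.le) (fun F => ?_)
    rcases F.eq_empty_or_nonempty with hF | hF
    · subst hF
      simp only [Finset.sum_empty]
      linarith
    · obtain ⟨G, hG⟩ : ∃ G : Finset ι, G = F.map (Function.Embedding.subtype _) := ⟨_, rfl⟩
      have hGsum : ∑ i ∈ F, w i.1 = ∑ i ∈ G, w i := by
        rw [hG, Finset.sum_map]
        rfl
      have hGmem : ∀ i ∈ G, ⌊q i / D⌋₊ = n := by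
        intro i hi
        rw [hG, Finset.mem_map] at hi
        obtain ⟨a, -, ha⟩ := hi
        rw [← ha]
        exact a.2
      have hGne : G.Nonempty := by
        rw [hG]
        exact hF.map
      rw [hGsum]
      obtain ⟨i1, hi1, hmax⟩ := G.exists_max_image (fun i => i) hGne
      obtain ⟨i0, hi0, hmin⟩ := G.exists_min_image (fun i => i) hGne
      have hsplit : ∑ i ∈ G, w i = ∑ i ∈ G.erase i1, w i + w i1 :=
        (Finset.sum_erase_add G w hi1).symm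
      have hkey : q i0 + ∑ i ∈ G.erase i1, w i ≤ q i1 := by
        have e1 : ∑ i ∈ G.erase i1, w i =
            ∑' j : ι, if j ∈ G.erase i1 then w j else 0 := by
          rw [tsum_eq_sum (s := G.erase i1)]
          · exact Finset.sum_congr rfl fun j hj => by rw [if_pos hj]
          · intro j hj
            rw [if_neg hj]
        have e2 : Summable (fun j : ι => if j ∈ G.erase i1 then w j else 0) := by
          refine summable_of_ne_finset_zero (s := G.erase i1) ?_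
          intro j hj
          rw [if_neg hj]
        rw [e1, hqdef i0, hqdef i1, ← (hif i0).tsum_add e2]
        refine ((hif i0).add e2).tsum_le_tsum (fun j => ?_) (hif i1)
        by_cases hj : j ∈ G.erase i1
        · have hjG : j ∈ G := Finset.mem_of_mem_erase hj
          have hj1 : j < i1 := lt_of_le_of_ne (hmax j hjG) (Finset.ne_of_mem_erase hj)
          have hj0 : ¬ j < i0 := not_lt.mpr (hmin j hjG)
          rw [if_pos hj, if_neg hj0, if_pos hj1]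
          linarith
        · rw [if_neg hj]
          by_cases hj0 : j < i0
          · have hj1 : j < i1 := lt_of_lt_of_le hj0 (hmax i0 hi0)
            rw [if_pos hj0, if_pos hj1]
            linarith
          · rw [if_neg hj0]
            split_ifs
            · linarith [(hw j).1]
            · linarith
      have hq0' : (n : ℝ) * D ≤ q i0 := by
        have h1 : ((⌊q i0 / D⌋₊ : ℕ) : ℝ) ≤ q i0 / D := Nat.floor_le (div_nonneg (hq0 i0) hD.le)
        rw [hGmem i0 hi0] at h1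
        have h2 := mul_le_mul_of_nonneg_right h1 hD.le
        rwa [div_mul_cancel₀ _ hD.ne'] at h2
      have hq1' : q i1 ≤ ((n : ℝ) + 1) * D := by
        have h1 : q i1 / D < ((⌊q i1 / D⌋₊ : ℕ) : ℝ) + 1 := Nat.lt_floor_add_one _
        rw [hGmem i1 hi1] at h1
        have h2 := mul_le_mul_of_nonneg_right h1.le hD.le
        rwa [div_mul_cancel₀ _ hD.ne'] at h2
      have h5 := (hw i1).2
      rw [hsplit]
      nlinarith

/-- the statement for fixed `m` and `ρ` -/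
def P (m : ℕ) (ρ : ℝ) : Prop := ∀ ε : ℝ, 0 < ε →
  ∃ s₀ : ℝ, 1 ≤ s₀ ∧ ∀ s : ℝ, s₀ ≤ s → ∀ (ι : Type) [Countable ι] (p : ι → Fin m → ℕ),
  (Summable fun i => ∏ l, ρ ^ p i l) → ∑' i, ∏ l, ρ ^ p i l ≤ (1 - ε) * s ^ m →
  ∃ pos : ι → Fin m → ℝ, (∀ i l, 0 ≤ pos i l ∧ pos i l + ρ ^ p i l ≤ s) ∧
    ∀ i i', i ≠ i' → ∃ l, pos i l + ρ ^ p i l ≤ pos i' l ∨ pos i' l + ρ ^ p i' l ≤ pos i l

lemma base (ρ : ℝ) (hρ : 0 < ρ) : P 1 ρ := by
  intro ε hε
  refine ⟨1, le_refl 1, fun s hs ι _ p hsum htsum => ?_⟩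
  have h1 : ∀ i, ∏ l : Fin 1, ρ ^ p i l = ρ ^ p i 0 := fun i => by simp
  simp only [h1] at hsum htsum
  obtain ⟨q, hq, hsep⟩ := stk ι (fun i => ρ ^ p i 0) (fun i => by positivity) hsum
  refine ⟨fun i _ => q i, fun i l => ?_, fun i i' hne => ⟨0, ?_⟩⟩
  · have hl : l = 0 := Subsingleton.elim _ _
    subst hl
    have h2 := hq i
    refine ⟨h2.1, ?_⟩
    have h3 : (1 - ε) * s ^ 1 ≤ s := by nlinarith
    linarith [h2.2]
  · exact hsep i i' hne

lemma choice {m : ℕ} (hm : 1 ≤ m) {ρ ε s : ℝ} (hρ1 : ρ < 1) (hε : 0 < ε) (hε1 : ε < 1)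
    (hs1 : 1 ≤ s) (hs2 : 4 / ε ≤ s) (hs3 : 2 / (ε * (1 - ρ)) ≤ s) :
    0 < (1 - ε / 4) * s ^ m - 1 ∧
    (1 - ε) * s ^ (m + 1) / ((1 - ε / 4) * s ^ m - 1) + 1 / (1 - ρ) ≤ s := by
  have hs0 : 0 < s := by linarith
  have hsm : s ≤ s ^ m := by
    calc s = s ^ 1 := (pow_one s).symm
      _ ≤ s ^ m := pow_le_pow_right₀ hs1 hm
  have h4 : 4 / ε ≤ s ^ m := hs2.trans hsm
  have h5 : 4 ≤ s ^ m * ε := by
    rwa [div_le_iff₀ hε] at h4
  have hsm0 : 0 < s ^ m := by positivity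
  have hD : (1 - ε / 2) * s ^ m ≤ (1 - ε / 4) * s ^ m - 1 := by nlinarith
  have hD0 : 0 < (1 - ε / 2) * s ^ m := by
    apply mul_pos _ hsm0
    linarith
  refine ⟨lt_of_lt_of_le hD0 hD, ?_⟩
  have hr : 0 < 1 - ρ := by linarith
  have h6 : (1 - ε) * s ^ (m + 1) / ((1 - ε / 4) * s ^ m - 1) ≤
      (1 - ε) * s ^ (m + 1) / ((1 - ε / 2) * s ^ m) := by
    apply div_le_div_of_nonneg_left _ hD0 hD
    apply mul_nonneg _ (by positivity)
    linarith
  have h7 : (1 - ε) * s ^ (m + 1) / ((1 - ε / 2) * s ^ m) = (1 - ε) / (1 - ε / 2) * s := by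
    have : (1 - ε / 2) ≠ 0 := by
      intro h
      linarith
    rw [pow_succ]
    field_simp
  have h8 : (1 - ε) / (1 - ε / 2) ≤ 1 - ε / 2 := by
    rw [div_le_iff₀ (by linarith)]
    nlinarith [sq_nonneg ε]
  have h9 : (1 - ε) / (1 - ε / 2) * s ≤ (1 - ε / 2) * s := mul_le_mul_of_nonneg_right h8 hs0.le
  have h10 : 1 / (1 - ρ) ≤ ε / 2 * s := by
    rw [div_le_iff₀ hr]
    rw [div_le_iff₀ (mul_pos hε hr)] at hs3
    nlinarith
  rw [h7] at h6
  nlinarith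

lemma step (m : ℕ) (hm : 1 ≤ m) (ρ : ℝ) (hρ : 0 < ρ) (hρ1 : ρ < 1) (ih : P m ρ) :
    P (m + 1) ρ := by
  intro ε hε
  have hvol0 : ∀ {ι : Type} (p : ι → Fin (m + 1) → ℕ) (i : ι), 0 < ∏ l, ρ ^ p i l :=
    fun p i => Finset.prod_pos fun l _ => by positivity
  rcases le_or_gt 1 ε with hε1 | hε1
  · refine ⟨1, le_refl 1, fun s hs ι _ p hsum htsum => ?_⟩
    have hemp : IsEmpty ι := by
      refine ⟨fun i => ?_⟩
      have h1 : ∏ l, ρ ^ p i l ≤ ∑' i, ∏ l, ρ ^ p i l :=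
        hsum.le_tsum i (fun j _ => (hvol0 p j).le)
      have h2 : (1 - ε) * s ^ (m + 1) ≤ 0 :=
        mul_nonpos_of_nonpos_of_nonneg (by linarith) (by positivity)
      have h3 := hvol0 p i
      linarith
    exact ⟨fun i => (hemp.false i).elim, fun i => (hemp.false i).elim,
      fun i => (hemp.false i).elim⟩
  obtain ⟨s1, hs1, ih⟩ := ih (ε / 4) (by positivity)
  refine ⟨max (max 1 s1) (max (4 / ε) (2 / (ε * (1 - ρ)))), (le_max_left _ _).trans
    (le_max_left _ _), fun s hs ι _ p hsum htsum => ?_⟩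
  have ha1 : 1 ≤ s := ((le_max_left _ _).trans (le_max_left _ _)).trans hs
  have ha2 : s1 ≤ s := ((le_max_right _ _).trans (le_max_left _ _)).trans hs
  have ha3 : 4 / ε ≤ s := ((le_max_left _ _).trans (le_max_right _ _)).trans hs
  have ha4 : 2 / (ε * (1 - ρ)) ≤ s := ((le_max_right _ _).trans (le_max_right _ _)).trans hs
  obtain ⟨hD, hfin⟩ := choice hm hρ1 hε hε1 ha1 ha3 ha4
  obtain ⟨D, hDdef⟩ : ∃ D : ℝ, D = (1 - ε / 4) * s ^ m - 1 := ⟨_, rfl⟩
  rw [← hDdef] at hD hfin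
  have hprod : ∀ i, ∏ l, ρ ^ p i l = (∏ l : Fin m, ρ ^ p i l.castSucc) * ρ ^ p i (Fin.last m) :=
    fun i => Fin.prod_univ_castSucc _
  have hbase0 : ∀ i, 0 < ∏ l : Fin m, ρ ^ p i l.castSucc := fun i =>
    Finset.prod_pos fun l _ => by positivity
  have hbase1 : ∀ i, ∏ l : Fin m, ρ ^ p i l.castSucc ≤ 1 := fun i =>
    Finset.prod_le_one (fun l _ => by positivity) fun l _ => pow_le_one₀ hρ.le hρ1.le
  obtain ⟨c, hc⟩ : ∃ c : ι → ℕ, c = fun i => p i (Fin.last m) := ⟨_, rfl⟩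
  have hc' : ∀ i, p i (Fin.last m) = c i := fun i => by rw [hc]
  -- volumes of the classes
  obtain ⟨vol, hvol⟩ : ∃ vol : ℕ → ℝ, vol = fun s0 => ∑' i : {i // c i = s0},
      ∏ l, ρ ^ p i.1 l := ⟨_, rfl⟩
  have hvolnn : ∀ s0, 0 ≤ vol s0 := fun s0 => by
    rw [hvol]
    exact tsum_nonneg fun i => (hvol0 p _).le
  have hsumσ : Summable fun x : (Σ s0 : ℕ, {i // c i = s0}) => ∏ l, ρ ^ p x.2.1 l := by
    have e0 := ((Equiv.sigmaFiberEquiv c).summable_iff (f := fun i => ∏ l, ρ ^ p i l)).mpr hsum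
    exact e0
  have hvolsum : Summable vol := by
    rw [hvol]
    exact hsumσ.sigma
  have hvoltsum : ∑' s0, vol s0 ≤ (1 - ε) * s ^ (m + 1) := by
    have e1 : ∑' x : (Σ s0 : ℕ, {i // c i = s0}), ∏ l, ρ ^ p x.2.1 l = ∑' i, ∏ l, ρ ^ p i l :=
      (Equiv.sigmaFiberEquiv c).tsum_eq (fun i => ∏ l, ρ ^ p i l)
    have e2 : ∑' x : (Σ s0 : ℕ, {i // c i = s0}), ∏ l, ρ ^ p x.2.1 l =
        ∑' s0 : ℕ, ∑' i : {i // c i = s0}, ∏ l, ρ ^ p i.1 l := hsumσ.tsum_sigma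
    rw [hvol]
    calc ∑' s0 : ℕ, ∑' i : {i // c i = s0}, ∏ l, ρ ^ p i.1 l = ∑' i, ∏ l, ρ ^ p i l := by
          rw [← e2, e1]
      _ ≤ _ := htsum
  -- the bases of a class
  have hbvol : ∀ (s0 : ℕ) (i : {i // c i = s0}), ∏ l : Fin m, ρ ^ p i.1 l.castSucc =
      (ρ ^ s0)⁻¹ * ∏ l, ρ ^ p i.1 l := by
    rintro s0 ⟨i, hi⟩
    show ∏ l : Fin m, ρ ^ p i l.castSucc = (ρ ^ s0)⁻¹ * ∏ l, ρ ^ p i l
    rw [hprod i, hc' i, hi]
    have : ρ ^ s0 ≠ 0 := by positivity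
    field_simp
  have hbsum : ∀ s0 : ℕ, Summable fun i : {i // c i = s0} =>
      ∏ l : Fin m, ρ ^ p i.1 l.castSucc := by
    intro s0
    simp only [hbvol s0]
    exact (hsum.subtype _).mul_left _
  have hbtsum : ∀ s0 : ℕ, ∑' i : {i // c i = s0}, ∏ l : Fin m, ρ ^ p i.1 l.castSucc =
      (ρ ^ s0)⁻¹ * vol s0 := by
    intro s0
    simp only [hbvol s0]
    rw [tsum_mul_left, hvol]
  -- the layers of a class
  have hclass : ∀ s0 : ℕ, ∃ (N : ℕ) (bin : {i // c i = s0} → ℕ)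
      (pos : {i // c i = s0} → Fin m → ℝ), (N : ℝ) ≤ (ρ ^ s0)⁻¹ * vol s0 / D + 1 ∧
      (∀ i, bin i < N) ∧ (∀ i l, 0 ≤ pos i l ∧ pos i l + ρ ^ p i.1 l.castSucc ≤ s) ∧
      ∀ i i', i ≠ i' → bin i = bin i' →
        ∃ l, pos i l + ρ ^ p i.1 l.castSucc ≤ pos i' l ∨
          pos i' l + ρ ^ p i'.1 l.castSucc ≤ pos i l := by
    intro s0
    obtain ⟨g, hg1, hg2⟩ := grp {i // c i = s0} (fun i => ∏ l : Fin m, ρ ^ p i.1 l.castSucc)
      (fun i => ⟨hbase0 _, hbase1 _⟩) (hbsum s0) D hD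
    rw [hbtsum s0] at hg1
    have hlay : ∀ n : ℕ, ∃ pos : {i : {i // c i = s0} // g i = n} → Fin m → ℝ,
        (∀ i l, 0 ≤ pos i l ∧ pos i l + ρ ^ p i.1.1 l.castSucc ≤ s) ∧
        ∀ i i', i ≠ i' → ∃ l, pos i l + ρ ^ p i.1.1 l.castSucc ≤ pos i' l ∨
          pos i' l + ρ ^ p i'.1.1 l.castSucc ≤ pos i l := by
      intro n
      refine ih s ha2 {i : {i // c i = s0} // g i = n} (fun i l => p i.1.1 l.castSucc)
        ((hbsum s0).subtype _) ?_
      have h1 := hg2 n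
      rw [hDdef] at h1
      calc _ ≤ _ := h1
        _ = _ := by ring
    choose pos hpos hsep using hlay
    have hvn : 0 ≤ (ρ ^ s0)⁻¹ * vol s0 / D :=
      div_nonneg (mul_nonneg (by positivity) (hvolnn s0)) hD.le
    refine ⟨⌊(ρ ^ s0)⁻¹ * vol s0 / D⌋₊ + 1, g, fun i => pos (g i) ⟨i, rfl⟩, ?_, ?_, ?_, ?_⟩
    · push_cast
      linarith [Nat.floor_le hvn]
    · intro i
      refine Nat.lt_succ_of_le (Nat.le_floor ?_)
      rw [le_div_iff₀ hD]
      exact hg1 i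
    · intro i l
      exact hpos (g i) ⟨i, rfl⟩ l
    · intro i i' hne hgg
      have hgen : ∀ (n : ℕ) (hi : g i' = n), pos (g i') ⟨i', rfl⟩ = pos n ⟨i', hi⟩ := by
        rintro _ rfl
        rfl
      obtain ⟨l, hl⟩ := hsep (g i) ⟨i, rfl⟩ ⟨i', hgg.symm⟩
        (fun h => hne (congrArg Subtype.val h))
      refine ⟨l, ?_⟩
      show pos (g i) ⟨i, rfl⟩ l + _ ≤ pos (g i') ⟨i', rfl⟩ l ∨
        pos (g i') ⟨i', rfl⟩ l + _ ≤ pos (g i) ⟨i, rfl⟩ l
      rw [hgen (g i) hgg.symm]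
      exact hl
  choose N bin pos hN hbinlt hpos hsep using hclass
  -- the slabs
  have hht : ∀ x : (Σ s0 : ℕ, Fin (N s0)), 0 < ρ ^ x.1 := fun x => by positivity
  have hinner : ∀ s0 : ℕ, ∑' _ : Fin (N s0), ρ ^ s0 = N s0 * ρ ^ s0 := by
    intro s0
    rw [tsum_fintype, Finset.sum_const, nsmul_eq_mul, Finset.card_univ, Fintype.card_fin]
  have hbd : ∀ s0 : ℕ, N s0 * ρ ^ s0 ≤ vol s0 / D + ρ ^ s0 := by
    intro s0
    calc N s0 * ρ ^ s0 ≤ ((ρ ^ s0)⁻¹ * vol s0 / D + 1) * ρ ^ s0 := by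
          gcongr
          exact hN s0
      _ = _ := by
          have : ρ ^ s0 ≠ 0 := by positivity
          field_simp
  have hgeo : Summable fun s0 : ℕ => ρ ^ s0 := summable_geometric_of_lt_one hρ.le hρ1
  have hrhs : Summable fun s0 : ℕ => vol s0 / D + ρ ^ s0 := (hvolsum.div_const _).add hgeo
  have hlhs : Summable fun s0 : ℕ => N s0 * ρ ^ s0 :=
    Summable.of_nonneg_of_le (fun s0 => by positivity) hbd hrhs
  have hslab : Summable fun x : (Σ s0 : ℕ, Fin (N s0)) => ρ ^ x.1 := by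
    rw [summable_sigma_of_nonneg (fun x => (hht x).le)]
    refine ⟨fun s0 => (hasSum_fintype _).summable, ?_⟩
    simp only [hinner]
    exact hlhs
  have hslabt : ∑' x : (Σ s0 : ℕ, Fin (N s0)), ρ ^ x.1 ≤ s := by
    rw [hslab.tsum_sigma]
    simp only [hinner]
    calc ∑' s0 : ℕ, N s0 * ρ ^ s0
        ≤ ∑' s0 : ℕ, (vol s0 / D + ρ ^ s0) := hlhs.tsum_le_tsum hbd hrhs
      _ = (∑' s0, vol s0) / D + 1 / (1 - ρ) := by
          rw [(hvolsum.div_const _).tsum_add hgeo, tsum_div_const,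
            tsum_geometric_of_lt_one hρ.le hρ1, one_div]
      _ ≤ (1 - ε) * s ^ (m + 1) / D + 1 / (1 - ρ) := by gcongr
      _ ≤ s := hfin
  obtain ⟨posS, hposS, hsepS⟩ := stk (Σ s0 : ℕ, Fin (N s0)) (fun x => ρ ^ x.1) hht hslab
  -- the slab of an item
  obtain ⟨slab, hslabdef⟩ : ∃ slab : ι → (Σ s0 : ℕ, Fin (N s0)),
      slab = fun i => ⟨c i, ⟨bin (c i) ⟨i, rfl⟩, hbinlt (c i) ⟨i, rfl⟩⟩⟩ := ⟨_, rfl⟩
  have hslab1 : ∀ i, (slab i).1 = c i := fun i => by rw [hslabdef]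
  obtain ⟨posF, hF1, hF2⟩ : ∃ posF : ι → Fin (m + 1) → ℝ,
      (∀ i (l : Fin m), posF i l.castSucc = pos (c i) ⟨i, rfl⟩ l) ∧
      ∀ i, posF i (Fin.last m) = posS (slab i) := by
    refine ⟨fun i => Fin.snoc (α := fun _ => ℝ) (fun l : Fin m => pos (c i) ⟨i, rfl⟩ l)
      (posS (slab i)), fun i l => ?_, fun i => ?_⟩
    · exact Fin.snoc_castSucc (α := fun _ => ℝ) _ _ _
    · exact Fin.snoc_last (α := fun _ => ℝ) _ _
  refine ⟨posF, ?_, ?_⟩
  · intro i l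
    induction l using Fin.lastCases with
    | last =>
      rw [hF2, hc']
      have e1 := hposS (slab i)
      simp only [hslab1 i] at e1
      exact ⟨e1.1, e1.2.trans hslabt⟩
    | cast l =>
      rw [hF1]
      exact hpos (c i) ⟨i, rfl⟩ l
  · intro i i' hne
    by_cases hsl : slab i = slab i'
    · have hs : c i' = c i := by rw [← hslab1, ← hslab1, hsl]
      have hgen : ∀ (s0 : ℕ) (hi : c i' = s0),
          bin (c i') ⟨i', rfl⟩ = bin s0 ⟨i', hi⟩ ∧ pos (c i') ⟨i', rfl⟩ = pos s0 ⟨i', hi⟩ := by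
        rintro _ rfl
        exact ⟨rfl, rfl⟩
      have hb : bin (c i) ⟨i, rfl⟩ = bin (c i) ⟨i', hs⟩ := by
        rw [← (hgen (c i) hs).1]
        have : ((slab i).2 : ℕ) = ((slab i').2 : ℕ) := by rw [hsl]
        rw [hslabdef] at this
        exact this
      obtain ⟨l, hl⟩ := hsep (c i) ⟨i, rfl⟩ ⟨i', hs⟩ (fun h => hne (congrArg Subtype.val h)) hb
      refine ⟨l.castSucc, ?_⟩
      rw [hF1, hF1, (hgen (c i) hs).2]
      exact hl
    · refine ⟨Fin.last m, ?_⟩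
      rw [hF2, hF2, hc', hc']
      have e1 := hsepS (slab i) (slab i') hsl
      simp only [hslab1 i, hslab1 i'] at e1
      exact e1

lemma all (ρ : ℝ) (hρ : 0 < ρ) (hρ1 : ρ < 1) (m : ℕ) : P (m + 1) ρ := by
  induction m with
  | zero => exact base ρ hρ
  | succ m ih => exact step (m + 1) (by omega) ρ hρ hρ1 ih

end AuxBx

theorem pr_Bx : S_Bx := by
  intro m ρ ε hm hρ hρ1 hε
  obtain ⟨n, rfl⟩ : ∃ n, m = n + 1 := ⟨m - 1, by omega⟩
  exact AuxBx.all ρ hρ hρ1 n ε hε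

end Pool.Agent.Potatoes.LV
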