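import Pool.Agent.Work.MP_72041b_co.LV.Stmts

set_option autoImplicit false

/-!
# Item Cls: finitely many classes of shapes
-/

namespace Pool.Agent.Potatoes.LV

open MeasureTheory Set Metric
open scoped RealInnerProductSpace Pointwise

namespace AuxCls

/-- a small factor -/
theorem exists_delta (k : ℕ) (η : ℝ) (hη : 0 < η) : ∃ δ : ℝ, 0 < δ ∧ (1 + δ) ^ k ≤ 1 + η := by
  have h1 : Filter.Tendsto (fun t : ℝ => (1 + t) ^ k) (nhds 0) (nhds ((1 + 0) ^ k)) := by
    apply Continuous.tendsto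
    fun_prop
  have h2 : ∀ᶠ t : ℝ in nhds 0, (1 + t) ^ k < 1 + η := by
    apply h1.eventually_lt_const
    simp only [add_zero, one_pow]
    linarith
  have h3 : ∀ᶠ t : ℝ in nhdsWithin 0 (Ioi 0), (1 + t) ^ k < 1 + η :=
    h2.filter_mono nhdsWithin_le_nhds
  obtain ⟨t, ht1, ht2⟩ := (h3.and self_mem_nhdsWithin).exists
  exact ⟨t, ht2, ht1.le⟩

/-- the grid cube -/
def cell {k : ℕ} (n : ℕ) (e : Fin k → Fin n) : Set (E k) :=
  {x | ∀ l, ((e l : ℕ) : ℝ) / n ≤ x l ∧ x l ≤ (((e l : ℕ) : ℝ) + 1) / n}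

theorem exists_cell {k : ℕ} (n : ℕ) (hn : 0 < n) (x : E k) (hx : x ∈ ubox k) :
    ∃ e : Fin k → Fin n, x ∈ cell n e := by
  have hn' : (0 : ℝ) < n := by exact_mod_cast hn
  have h : ∀ l, ∃ j : Fin n, ((j : ℕ) : ℝ) / n ≤ x l ∧ x l ≤ (((j : ℕ) : ℝ) + 1) / n := by
    intro l
    obtain ⟨h0, h1⟩ := hx l
    by_cases hl : ⌊(n : ℝ) * x l⌋₊ < n
    · refine ⟨⟨_, hl⟩, ?_, ?_⟩
      · rw [div_le_iff₀ hn']
        have := Nat.floor_le (mul_nonneg hn'.le h0)
        simp only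
        linarith
      · rw [le_div_iff₀ hn']
        have := (Nat.lt_floor_add_one ((n : ℝ) * x l)).le
        simp only
        linarith
    · have h2 : (n : ℝ) ≤ n * x l := by
        have h3 : n ≤ ⌊(n : ℝ) * x l⌋₊ := not_lt.mp hl
        have h4 := Nat.floor_le (mul_nonneg hn'.le h0)
        have h5 : (n : ℝ) ≤ (⌊(n : ℝ) * x l⌋₊ : ℝ) := by exact_mod_cast h3
        linarith
      have h3 : x l = 1 := by
        apply le_antisymm h1
        by_contra h4
        push Not at h4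
        nlinarith
      refine ⟨⟨n - 1, by omega⟩, ?_, ?_⟩
      · rw [h3, div_le_one hn']
        have : ((n - 1 : ℕ) : ℝ) ≤ n := by exact_mod_cast Nat.sub_le n 1
        exact this
      · rw [h3, le_div_iff₀ hn', Nat.cast_sub (by omega : 1 ≤ n)]
        simp
  choose e he using h
  exact ⟨e, he⟩

theorem norm_le {k : ℕ} (d : ℝ) (hd : 0 ≤ d) (z : E k) (hz : ∀ l, |z l| ≤ d) :
    ‖z‖ ≤ √k * d := by
  rw [EuclideanSpace.norm_eq]
  have h1 : ∑ i, ‖z i‖ ^ 2 ≤ (k : ℝ) * d ^ 2 := by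
    have h2 : ∑ i, ‖z i‖ ^ 2 ≤ ∑ _i : Fin k, d ^ 2 := by
      apply Finset.sum_le_sum
      intro i _
      have := hz i
      rw [Real.norm_eq_abs]
      exact pow_le_pow_left₀ (abs_nonneg _) this 2
    simpa using h2
  calc √(∑ i, ‖z i‖ ^ 2) ≤ √((k : ℝ) * d ^ 2) := Real.sqrt_le_sqrt h1
    _ = √k * d := by
      rw [Real.sqrt_mul (by positivity), Real.sqrt_sq hd]

theorem close_pt {k : ℕ} (n : ℕ) (e : Fin k → Fin n) (x y : E k)
    (hx : x ∈ cell n e) (hy : y ∈ cell n e) : ‖x - y‖ ≤ √k * (1 / n) := by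
  apply norm_le _ (by positivity)
  intro l
  obtain ⟨h1, h2⟩ := hx l
  obtain ⟨h3, h4⟩ := hy l
  have h5 : (((e l : ℕ) : ℝ) + 1) / n = ((e l : ℕ) : ℝ) / n + 1 / n := by ring
  rw [h5] at h2 h4
  rw [PiLp.sub_apply, abs_le]
  constructor <;> linarith

/-- `K - K` contains a ball -/
theorem ball_sub {k : ℕ} (c r : ℝ) (hr : ∀ D : Set (E k), IsCompact D →
    Convex ℝ D → (∀ x ∈ D, -x ∈ D) → (∀ x ∈ D, ∀ i, |x i| ≤ 1) → c ≤ volume.real D →
    closedBall 0 r ⊆ D) (K : Set (E k)) (hK : IsBody K) (hKu : K ⊆ ubox k)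
    (hKc : c ≤ volume.real K) : closedBall 0 r ⊆ K - K := by
  have hcomp : IsCompact (K - K) := by rw [sub_eq_add_neg]; exact hK.compact.add hK.compact.neg
  refine hr (K - K) hcomp (hK.convex.sub hK.convex) ?_ ?_ ?_
  · rintro x ⟨a, ha, b, hb, rfl⟩
    exact ⟨b, hb, a, ha, by simp⟩
  · rintro x ⟨a, ha, b, hb, rfl⟩ i
    obtain ⟨h1, h2⟩ := hKu ha i
    obtain ⟨h3, h4⟩ := hKu hb i
    simp only [PiLp.sub_apply]
    rw [abs_le]
    constructor <;> linarith
  · obtain ⟨x₀, hx₀⟩ := hK.inner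
    have hx₀' : x₀ ∈ K := interior_subset hx₀
    have h1 : (fun x => x - x₀) '' K ⊆ K - K := by
      rintro y ⟨x, hx, rfl⟩
      exact ⟨x, hx, x₀, hx₀', rfl⟩
    have h2 : volume ((fun x => x - x₀) '' K) = volume K := by
      have : (fun x => x - x₀) '' K = (fun x => x + -x₀) '' K := by
        simp only [sub_eq_add_neg]
      rw [this]
      exact measure_preimage_add_right volume x₀ K ▸ by
        rw [Set.image_add_right]
        simp
    have h3 : volume.real K ≤ volume.real (K - K) := by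
      rw [measureReal_def, measureReal_def, ← h2]
      exact ENNReal.toReal_mono hcomp.measure_lt_top.ne (measure_mono h1)
    linarith

theorem main_est {k : ℕ} (r δ : ℝ) (hδ : 0 < δ) (n : ℕ)
    (hnδ : √k * (1 / n) ≤ δ * r) (K L : Set (E k)) (hK : IsBody K)
    (hball : closedBall 0 r ⊆ K - K)
    (hclose : ∀ y ∈ L, ∃ y' ∈ K, ‖y' - y‖ ≤ √k * (1 / n)) :
    K - L ⊆ (1 + δ) • (K - K) := by
  rw [(hK.convex.sub hK.convex).add_smul zero_le_one hδ.le, one_smul]
  rintro z ⟨x, hx, y, hy, rfl⟩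
  obtain ⟨y', hy', hyy⟩ := hclose y hy
  refine ⟨x - y', ⟨x, hx, y', hy', rfl⟩, y' - y, ?_, by simp⟩
  refine ⟨δ⁻¹ • (y' - y), hball ?_, ?_⟩
  · rw [mem_closedBall_zero_iff, norm_smul, norm_inv, Real.norm_eq_abs, abs_of_pos hδ,
      inv_mul_le_iff₀ hδ]
    linarith
  · simp only
    rw [smul_smul, mul_inv_cancel₀ hδ.ne', one_smul]

end AuxCls

open AuxCls in
theorem pr_Cls (h1 : S_Rz) (h2 : S_Sym) : S_Cls := by
  intro k c η hc hη
  obtain ⟨r, hr, hrD⟩ := h2 k c hc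
  obtain ⟨δ, hδ, hδη⟩ := exists_delta k η hη
  obtain ⟨n, hn⟩ := exists_nat_gt (√k / (δ * r))
  have hδr : 0 < δ * r := mul_pos hδ hr
  have hn0' : (0 : ℝ) < n := lt_of_le_of_lt (by positivity) hn
  have hn0 : 0 < n := by exact_mod_cast hn0'
  have hnδ : √k * (1 / n) ≤ δ * r := by
    rw [mul_one_div, div_le_iff₀ hn0']
    rw [div_lt_iff₀ hδr] at hn
    linarith
  obtain ⟨m, ⟨φ⟩⟩ := Finite.exists_equiv_fin (Set (Fin k → Fin n))
  refine ⟨m, fun K => φ {e | (K ∩ cell n e).Nonempty}, ?_⟩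
  intro K L hK hL hKu hLu hKc hLc hlab
  have hlab' : {e : Fin k → Fin n | (K ∩ cell n e).Nonempty} =
      {e : Fin k → Fin n | (L ∩ cell n e).Nonempty} := φ.injective hlab
  have hclose : ∀ y ∈ L, ∃ y' ∈ K, ‖y' - y‖ ≤ √k * (1 / n) := by
    intro y hy
    obtain ⟨e, he⟩ := exists_cell n hn0 y (hLu hy)
    have h3 : e ∈ {e : Fin k → Fin n | (K ∩ cell n e).Nonempty} := by
      rw [hlab']
      exact ⟨y, hy, he⟩
    obtain ⟨y', hy', he'⟩ := h3
    exact ⟨y', hy', close_pt n e y' y he' he⟩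
  have hball := ball_sub c r hrD K hK hKu hKc
  have hsub := main_est r δ hδ n hnδ K L hK hball hclose
  have hcomp : IsCompact (K - K) := by rw [sub_eq_add_neg]; exact hK.compact.add hK.compact.neg
  have hvol : volume ((1 + δ) • (K - K)) = ENNReal.ofReal ((1 + δ) ^ k) * volume (K - K) := by
    rw [Measure.addHaar_smul, finrank_euclideanSpace_fin, abs_of_pos (by positivity)]
  have hfin : volume ((1 + δ) • (K - K)) ≠ ⊤ := by
    rw [hvol]
    exact ENNReal.mul_ne_top ENNReal.ofReal_ne_top hcomp.measure_lt_top.ne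
  have h3 : volume.real (K - L) ≤ (1 + δ) ^ k * volume.real (K - K) := by
    have h4 : volume.real (K - L) ≤ volume.real ((1 + δ) • (K - K)) :=
      ENNReal.toReal_mono hfin (measure_mono hsub)
    have h5 : volume.real ((1 + δ) • (K - K)) = (1 + δ) ^ k * volume.real (K - K) := by
      rw [measureReal_def, hvol, ENNReal.toReal_mul, ENNReal.toReal_ofReal (by positivity),
        measureReal_def]
    linarith
  have h4 := h1 k K hK
  have h5 : (0 : ℝ) ≤ volume.real (K - K) := measureReal_nonneg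
  calc volume.real (K - L) ≤ (1 + δ) ^ k * volume.real (K - K) := h3
    _ ≤ (1 + η) * volume.real (K - K) := mul_le_mul_of_nonneg_right hδη h5
    _ ≤ (1 + η) * (4 ^ k * volume.real K) := mul_le_mul_of_nonneg_left h4 (by linarith)
    _ = (1 + η) * 4 ^ k * volume.real K := by ring

end Pool.Agent.Potatoes.LV
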