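import Pool.Agent.Work.MP_72041b_co.LV.Stmts

set_option autoImplicit false

namespace Pool.Agent.Potatoes.LV

open MeasureTheory Set Metric
open scoped RealInnerProductSpace Pointwise

namespace AuxGrd

/-- the box of admissible positions -/
def bx (k : ℕ) (s : ℝ) : Set (E k) := {x | ∀ l, 0 ≤ x l ∧ x l ≤ s}

theorem vol_bx (k : ℕ) (s : ℝ) (hs : 0 ≤ s) : volume (bx k s) = ENNReal.ofReal (s ^ k) := by
  have h1 : bx k s = (WithLp.ofLp : E k → Fin k → ℝ) ⁻¹' (Set.Icc (fun _ => (0 : ℝ)) (fun _ => s)) := by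
    ext x
    simp only [bx, Set.mem_ofPred_eq, Set.mem_preimage, Set.mem_Icc, Pi.le_def]
    constructor
    · intro h
      exact ⟨fun l => (h l).1, fun l => (h l).2⟩
    · intro h l
      exact ⟨h.1 l, h.2 l⟩
  rw [h1, (PiLp.volume_preserving_ofLp (Fin k)).measure_preimage
    (measurableSet_Icc).nullMeasurableSet, Real.volume_Icc_pi]
  simp only [sub_zero, Finset.prod_const, Finset.card_univ, Fintype.card_fin]
  rw [ENNReal.ofReal_pow hs]

theorem greedy {k : ℕ} {M Q : ℝ} (hM : 1 < M) (hQ : 0 < Q) {ι : Type} [Countable ι]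
    (K : ι → Set (E k)) (hK : ∀ i, IsBody (K i))
    (hvol : ∀ i j, volume.real (K i - K j) ≤ Q * volume.real (K i))
    (hsum : Summable fun i => volume.real (K i)) :
  ∃ (pal : ι → ℕ) (pos : ι → E k), (∀ i l, 0 ≤ pos i l ∧ pos i l ≤ M - 1) ∧
    (∀ i j, i ≠ j → pal i = pal j →
      Disjoint ((fun x => pos i + x) '' K i) ((fun x => pos j + x) '' K j)) ∧
    ∀ i, (pal i : ℝ) * (M - 1) ^ k ≤ Q * ∑' j, volume.real (K j) := by
  classical
  obtain ⟨e, he⟩ := exists_injective_nat ι
  -- the step
  let Good : (i : ι) → ((j : ι) → e j < e i → ℕ × E k) → ℕ → E k → Prop := fun i ih p x =>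
    (∀ l, 0 ≤ x l ∧ x l ≤ M - 1) ∧ ∀ j (h : e j < e i), (ih j h).1 = p →
      Disjoint ((fun y => x + y) '' K i) ((fun y => (ih j h).2 + y) '' K j)
  let step : (i : ι) → ((j : ι) → e j < e i → ℕ × E k) → ℕ × E k := fun i ih =>
    if h : ∃ p, ∃ x, Good i ih p x then (Nat.find h, (Nat.find_spec h).choose) else (0, 0)
  have wf : WellFounded (fun j i : ι => e j < e i) := InvImage.wf e Nat.lt_wfRel.wf
  let G : ι → ℕ × E k := wf.fix step
  have hG : ∀ i, G i = step i (fun j _ => G j) := fun i => wf.fix_eq step i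
  have hfin : ∀ i, {j | e j < e i}.Finite := by
    intro i
    exact Set.Finite.preimage he.injOn (Set.finite_Iio (e i))
  have hex : ∀ i, ∃ p, ∃ x, Good i (fun j _ => G j) p x := by
    intro i
    obtain ⟨p, hp⟩ := Set.Finite.exists_notMem ((hfin i).image fun j => (G j).1)
    refine ⟨p, 0, fun l => ⟨le_refl _, ?_⟩, ?_⟩
    · simp only [PiLp.zero_apply]; linarith
    · intro j hj hjp
      exact absurd ⟨j, hj, hjp⟩ hp
  have hgood : ∀ i, Good i (fun j _ => G j) (G i).1 (G i).2 := by
    intro i
    have h1 : G i = (Nat.find (hex i), (Nat.find_spec (hex i)).choose) := by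
      rw [hG i]
      exact dif_pos (hex i)
    rw [h1]
    exact (Nat.find_spec (hex i)).choose_spec
  have hmin : ∀ i p, p < (G i).1 → ¬ ∃ x, Good i (fun j _ => G j) p x := by
    intro i p hp
    have h1 : G i = (Nat.find (hex i), (Nat.find_spec (hex i)).choose) := by
      rw [hG i]
      exact dif_pos (hex i)
    rw [h1] at hp
    exact Nat.find_min (hex i) hp
  refine ⟨fun i => (G i).1, fun i => (G i).2, fun i => (hgood i).1, ?_, ?_⟩
  · intro i j hij hp
    rcases lt_or_gt_of_ne (fun h => hij (he h) : e i ≠ e j) with h | h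
    · exact ((hgood j).2 i h hp).symm
    · exact (hgood i).2 j h hp.symm
  · intro i
    -- volume of one pallet
    have hpal : ∀ p, p < (G i).1 → ENNReal.ofReal ((M - 1) ^ k) ≤
        ∑ j ∈ (hfin i).toFinset.filter (fun j => (G j).1 = p),
          volume (K j - K i) := by
      intro p hp
      have hcov : bx k (M - 1) ⊆ ⋃ j ∈ (hfin i).toFinset.filter (fun j => (G j).1 = p),
          (fun y => (G j).2 + y) '' (K j - K i) := by
        intro x hx
        have h1 := hmin i p hp
        have h2 : ¬ Good i (fun j _ => G j) p x := fun h => h1 ⟨x, h⟩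
        have h3 : ¬ ∀ j (_ : e j < e i), (G j).1 = p →
            Disjoint ((fun y => x + y) '' K i) ((fun y => (G j).2 + y) '' K j) := fun h => h2 ⟨hx, h⟩
        push Not at h3
        obtain ⟨j, hj, hjp, hd⟩ := h3
        rw [Set.not_disjoint_iff] at hd
        obtain ⟨z, ⟨y, hy, hyz⟩, ⟨y', hy', hyz'⟩⟩ := hd
        simp only [Set.mem_iUnion, Finset.mem_filter, Set.Finite.mem_toFinset, Set.mem_ofPred_eq]
        refine ⟨j, ⟨hj, hjp⟩, y' - y, Set.sub_mem_sub hy' hy, ?_⟩
        have h4 : x + y = (G j).2 + y' := hyz.trans hyz'.symm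
        show (G j).2 + (y' - y) = x
        rw [← add_sub_assoc, ← h4, add_sub_cancel_right]
      calc ENNReal.ofReal ((M - 1) ^ k) = volume (bx k (M - 1)) := (vol_bx k (M - 1) (by linarith)).symm
        _ ≤ volume (⋃ j ∈ (hfin i).toFinset.filter (fun j => (G j).1 = p),
          (fun y => (G j).2 + y) '' (K j - K i)) := measure_mono hcov
        _ ≤ ∑ j ∈ (hfin i).toFinset.filter (fun j => (G j).1 = p),
          volume ((fun y => (G j).2 + y) '' (K j - K i)) := measure_biUnion_finset_le _ _
        _ = _ := by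
          apply Finset.sum_congr rfl
          intro j _
          rw [Set.image_add_left, measure_preimage_add]
    have hfinv : ∀ j, volume (K j - K i) ≠ ⊤ := fun j =>
      (IsCompact.measure_lt_top (by
        rw [sub_eq_add_neg]
        exact IsCompact.add (hK j).compact (IsCompact.neg (hK i).compact))).ne
    have hpal' : ∀ p, p < (G i).1 → (M - 1) ^ k ≤
        ∑ j ∈ (hfin i).toFinset.filter (fun j => (G j).1 = p), Q * volume.real (K j) := by
      intro p hp
      have h1 := hpal p hp
      have h2 : ∑ j ∈ (hfin i).toFinset.filter (fun j => (G j).1 = p), volume (K j - K i) ≠ ⊤ :=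
        (ENNReal.sum_lt_top.mpr fun j _ => (hfinv j).lt_top).ne
      have h3 := ENNReal.toReal_mono h2 h1
      rw [ENNReal.toReal_ofReal (pow_nonneg (by linarith) k),
        ENNReal.toReal_sum (fun j _ => hfinv j)] at h3
      exact h3.trans (Finset.sum_le_sum fun j _ => hvol j i)
    have hsum2 : ((G i).1 : ℝ) * (M - 1) ^ k ≤
        ∑ p ∈ Finset.range (G i).1, ∑ j ∈ (hfin i).toFinset.filter (fun j => (G j).1 = p),
          Q * volume.real (K j) := by
      calc ((G i).1 : ℝ) * (M - 1) ^ k = ∑ _p ∈ Finset.range (G i).1, (M - 1) ^ k := by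
            rw [Finset.sum_const, Finset.card_range, nsmul_eq_mul]
        _ ≤ _ := Finset.sum_le_sum fun p hp => hpal' p (Finset.mem_range.mp hp)
    refine hsum2.trans ?_
    have h5 : ∑ p ∈ Finset.range (G i).1, ∑ j ∈ (hfin i).toFinset.filter (fun j => (G j).1 = p),
          Q * volume.real (K j) ≤ ∑ j ∈ (hfin i).toFinset, Q * volume.real (K j) := by
      have hnn : ∀ j, 0 ≤ Q * volume.real (K j) := fun j => mul_nonneg hQ.le measureReal_nonneg
      rw [← Finset.sum_biUnion]
      · apply Finset.sum_le_sum_of_subset_of_nonneg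
        · intro j hj
          rw [Finset.mem_biUnion] at hj
          obtain ⟨p, _, hp⟩ := hj
          exact (Finset.mem_filter.mp hp).1
        · intro j _ _
          exact hnn j
      · intro p _ p' _ hpp'
        rw [Function.onFun, Finset.disjoint_left]
        intro j hj hj'
        exact hpp' ((Finset.mem_filter.mp hj).2.symm.trans (Finset.mem_filter.mp hj').2)
    refine h5.trans ?_
    rw [← Finset.mul_sum]
    exact mul_le_mul_of_nonneg_left (hsum.sum_le_tsum _ fun j _ => measureReal_nonneg) hQ.le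

end AuxGrd

theorem pr_Grd : S_Grd := by
  intro k M Q _ hM hQ ι _ K hK _ hvol hsum
  exact AuxGrd.greedy hM hQ K hK hvol hsum

end Pool.Agent.Potatoes.LV
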