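import Pool.Agent.Work.MP_72041b_co.LV.Stmts

set_option autoImplicit false

namespace Pool.Agent.Potatoes.LV

open MeasureTheory Set Metric
open scoped RealInnerProductSpace Pointwise

namespace AuxGrp

/-- bodies of diameter at most one have volume at most one -/
lemma vol_le_one (k : ℕ) (K : Set (E k)) (hK : IsBody K) (hd : diam K ≤ 1) :
    volume.real K ≤ 1 := by
  have hne : K.Nonempty := hK.inner.mono interior_subset
  have hbd : Bornology.IsBounded K := hK.compact.isBounded
  set m : Fin k → ℝ := fun l => sInf ((fun x : E k => x l) '' K) with hm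
  have hdist : ∀ x ∈ K, ∀ y ∈ K, ∀ l, x l - y l ≤ 1 := by
    intro x hx y hy l
    have h1 : ‖(x - y) l‖ ≤ ‖x - y‖ := PiLp.norm_apply_le (x - y) l
    have h2 : ‖x - y‖ = dist x y := (dist_eq_norm x y).symm
    have h3 : dist x y ≤ diam K := dist_le_diam_of_mem hbd hx hy
    have h4 : (x - y) l ≤ ‖(x - y) l‖ := le_abs_self _
    have h5 : (x - y) l = x l - y l := rfl
    linarith
  have hbb : ∀ l, BddBelow ((fun x : E k => x l) '' K) := by
    intro l
    obtain ⟨y, hy⟩ := hne
    refine ⟨y l - 1, ?_⟩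
    rintro _ ⟨x, hx, rfl⟩
    have := hdist y hy x hx l
    show y l - 1 ≤ x l
    linarith
  have hsub : K ⊆ (@WithLp.ofLp 2 (Fin k → ℝ)) ⁻¹'
      (Set.pi univ fun l => Icc (m l) (m l + 1)) := by
    intro x hx
    simp only [mem_preimage, mem_pi, mem_univ, true_imp_iff, mem_Icc]
    intro l
    constructor
    · exact csInf_le (hbb l) ⟨x, hx, rfl⟩
    · have h1 : x l - 1 ≤ m l := by
        refine le_csInf (hne.image _) ?_
        rintro _ ⟨y, hy, rfl⟩
        have := hdist x hx y hy l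
        show x l - 1 ≤ y l
        linarith
      have h2 : x l ≤ m l + 1 := by linarith
      exact h2
  have hv : volume ((@WithLp.ofLp 2 (Fin k → ℝ)) ⁻¹'
      (Set.pi univ fun l => Icc (m l) (m l + 1))) = 1 := by
    rw [(PiLp.volume_preserving_ofLp (Fin k)).measure_preimage
      (MeasurableSet.univ_pi fun _ => measurableSet_Icc).nullMeasurableSet, volume_pi_pi]
    simp [Real.volume_Icc]
  have h1 : volume K ≤ 1 := (measure_mono hsub).trans hv.le
  rw [measureReal_def]
  exact ENNReal.toReal_le_of_le_ofReal zero_le_one (by simpa using h1)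

/-- disjoint intervals in an interval -/
lemma sum_le {ι : Type} [LinearOrder ι] (h q : ι → ℝ) (hq : ∀ i i', i < i' → q i + h i ≤ q i')
    (F : Finset ι) : ∀ A B : ℝ, A ≤ B → (∀ j ∈ F, A ≤ q j) → (∀ j ∈ F, q j + h j ≤ B) →
      ∑ j ∈ F, h j ≤ B - A := by
  induction F using Finset.induction_on_max with
  | empty =>
    intro A B hAB _ _
    simpa using hAB
  | insert a s hs ih =>
    intro A B hAB hA hB
    have ha : a ∉ s := fun hh => lt_irrefl _ (hs a hh)
    rw [Finset.sum_insert ha]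
    have h1 := ih A (q a) (hA a (Finset.mem_insert_self a s))
      (fun j hj => hA j (Finset.mem_insert_of_mem hj)) (fun j hj => hq j a (hs j hj))
    have h2 := hB a (Finset.mem_insert_self a s)
    linarith

end AuxGrp

open AuxGrp

theorem pr_Grp : S_Grp := by
  intro k N v c c' b hk hN hv hc hcc hb hbN hW
  have hc' : 0 < c' := hc.trans hcc
  have hN0 : (0 : ℝ) < N := by
    have : (1 : ℝ) ≤ N := by exact_mod_cast hN
    linarith
  have hsk : 0 < √(k : ℝ) := Real.sqrt_pos.mpr (by exact_mod_cast hk)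
  have hv1 : 0 < v - 1 := by linarith
  rw [(claimStd k 1 b (N * c') hk (mul_pos hN0 hc')).1]
  rw [(claimStd k 1 v c hk hc).1] at hW
  intro ι _ K hK hd htot
  -- real volumes
  have hfin : ∀ i, volume (K i) ≠ ⊤ := fun i => (hK i).compact.measure_lt_top.ne
  have hpos : ∀ i, 0 < volume.real (K i) := by
    intro i
    rw [measureReal_def]
    refine ENNReal.toReal_pos ?_ (hfin i)
    have h1 : 0 < volume (interior (K i)) := isOpen_interior.measure_pos volume (hK i).inner
    exact (h1.trans_le (measure_mono interior_subset)).ne'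
  have hle : ∀ i, volume.real (K i) ≤ 1 := fun i => vol_le_one k (K i) (hK i) (hd i)
  have htop : ∑' i, volume (K i) ≠ ⊤ := ne_top_of_le_ne_top ENNReal.ofReal_ne_top htot
  have hsum : Summable fun i => volume.real (K i) := ENNReal.summable_toReal htop
  have hsb : ∑' i, volume.real (K i) ≤ b := by
    have h1 : ∑' i, volume.real (K i) = (∑' i, volume (K i)).toReal := by
      rw [ENNReal.tsum_toReal_eq hfin]
      rfl
    rw [h1]
    exact ENNReal.toReal_le_of_le_ofReal hb.le htot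
  obtain ⟨e, he⟩ := exists_injective_nat ι
  let _ : LinearOrder ι := LinearOrder.lift' e he
  obtain ⟨q, -, hq0, -, hqs, hqq⟩ := claimStack ι (fun i => volume.real (K i)) hpos hsum
  -- the groups
  have hflo : ∀ i, ⌊q i / (v - 1)⌋₊ < N ^ k := by
    intro i
    rw [Nat.floor_lt (div_nonneg (hq0 i) hv1.le), div_lt_iff₀ hv1]
    have h1 := hqs i
    have h2 := hpos i
    push_cast
    linarith
  set grp : ι → Fin (N ^ k) := fun i => ⟨⌊q i / (v - 1)⌋₊, hflo i⟩ with hgrp
  have hgsum : ∀ m : Fin (N ^ k), ∑' i : {i // grp i = m}, volume (K i) ≤ ENNReal.ofReal v := by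
    intro m
    rw [ENNReal.tsum_eq_iSup_sum]
    refine iSup_le fun F => ?_
    have h1 : ∑ i ∈ F, volume (K (i : ι)) = ENNReal.ofReal (∑ i ∈ F, volume.real (K (i : ι))) := by
      rw [ENNReal.ofReal_sum_of_nonneg (fun (i : {i // grp i = m}) _ => (hpos (i : ι)).le)]
      refine Finset.sum_congr rfl fun i _ => ?_
      rw [measureReal_def, ENNReal.ofReal_toReal (hfin i)]
    rw [h1]
    apply ENNReal.ofReal_le_ofReal
    have h2 := sum_le (fun i : {i // grp i = m} => volume.real (K (i : ι))) (fun i => q i)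
      (fun i i' hii => hqq i i' hii) F ((m : ℕ) * (v - 1)) ((m : ℕ) * (v - 1) + v)
      (by linarith) ?_ ?_
    · linarith
    · rintro ⟨j, hj⟩ _
      have h3 : (m : ℕ) = ⌊q j / (v - 1)⌋₊ := by rw [← hj]
      have h4 : ((m : ℕ) : ℝ) ≤ q j / (v - 1) := by
        rw [h3]
        exact Nat.floor_le (div_nonneg (hq0 j) hv1.le)
      rw [le_div_iff₀ hv1] at h4
      exact h4
    · rintro ⟨j, hj⟩ _
      have h3 : (m : ℕ) = ⌊q j / (v - 1)⌋₊ := by rw [← hj]
      have h4 : q j / (v - 1) < ((m : ℕ) : ℝ) + 1 := by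
        rw [h3]
        exact Nat.lt_floor_add_one _
      rw [div_lt_iff₀ hv1] at h4
      have h5 := hle j
      show q j + volume.real (K j) ≤ _
      nlinarith
  have hpl : ∀ m : Fin (N ^ k), PlacedIn (fun i : {i // grp i = m} => K i)
      (stdCube k (c / √k)) := by
    intro m
    exact hW {i // grp i = m} (fun i => K i) (fun i => hK i) (fun i => hd i) (hgsum m)
  choose g hg1 hg2 using hpl
  -- the cells
  set s : ℝ := c' / √k with hs
  have hs0 : 0 < s := div_pos hc' hsk
  have hcs : c / √k < s := div_lt_div_of_pos_right hcc hsk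
  set cell : Fin (N ^ k) → Fin k → Fin N := fun m => finFunctionFinEquiv.symm m with hcell
  have hcelli : ∀ m m', m ≠ m' → ∃ l, cell m l ≠ cell m' l := by
    intro m m' hmm
    by_contra hcon
    push Not at hcon
    exact hmm (finFunctionFinEquiv.symm.injective (funext hcon))
  set ctr : Fin (N ^ k) → E k := fun m =>
    WithLp.toLp 2 fun l => (((cell m l : ℕ) : ℝ) + 1 / 2) * s - N * s / 2 with hctr
  have hctrv : ∀ m l, ctr m l = (((cell m l : ℕ) : ℝ) + 1 / 2) * s - N * s / 2 := by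
    intro m l
    rfl
  refine ⟨fun i => (g (grp i) ⟨i, rfl⟩).trans (IsometryEquiv.addRight (ctr (grp i))), ?_, ?_⟩
  · intro i
    rintro _ ⟨x, hx, rfl⟩ l
    have h1 : g (grp i) ⟨i, rfl⟩ x ∈ stdCube k (c / √k) := hg1 (grp i) ⟨i, rfl⟩ ⟨x, hx, rfl⟩
    have h2 := abs_le.mp (h1 l)
    have h3 : ((g (grp i) ⟨i, rfl⟩).trans (IsometryEquiv.addRight (ctr (grp i)))) x l
        = g (grp i) ⟨i, rfl⟩ x l + ctr (grp i) l := rfl
    rw [h3, hctrv]
    have h4 : ((cell (grp i) l : ℕ) : ℝ) + 1 ≤ N := by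
      have := (cell (grp i) l).isLt
      exact_mod_cast this
    have h5 : (0 : ℝ) ≤ ((cell (grp i) l : ℕ) : ℝ) := Nat.cast_nonneg _
    have h6 : (N : ℝ) * c' / √k = N * s := by rw [hs]; ring
    rw [h6, abs_le]
    constructor
    · nlinarith [mul_nonneg h5 hs0.le]
    · nlinarith [mul_le_mul_of_nonneg_right h4 hs0.le]
  · intro i j hij
    rw [Set.disjoint_left]
    rintro _ ⟨x, hx, rfl⟩ ⟨y, hy, hxy⟩
    have key : ∀ (i : ι) (m : Fin (N ^ k)) (hi : grp i = m), ∀ x,
        ((g (grp i) ⟨i, rfl⟩).trans (IsometryEquiv.addRight (ctr (grp i)))) x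
          = g m ⟨i, hi⟩ x + ctr m := by
      rintro i _ rfl x
      rfl
    by_cases hm : grp i = grp j
    · have h1 : ((g (grp j) ⟨j, rfl⟩).trans (IsometryEquiv.addRight (ctr (grp j)))) y
          = ((g (grp i) ⟨i, rfl⟩).trans (IsometryEquiv.addRight (ctr (grp i)))) x := hxy
      rw [key i (grp j) hm x, key j (grp j) rfl y] at h1
      have h2 := add_right_cancel h1
      have h3 : (⟨i, hm⟩ : {i // grp i = grp j}) ≠ ⟨j, rfl⟩ := by
        intro hh
        exact hij (congrArg Subtype.val hh)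
      have h4 := hg2 (grp j) ⟨i, hm⟩ ⟨j, rfl⟩ h3
      rw [Set.disjoint_left] at h4
      exact h4 ⟨x, hx, rfl⟩ ⟨y, hy, h2⟩
    · obtain ⟨l, hl⟩ := hcelli _ _ hm
      have h1 : ((g (grp j) ⟨j, rfl⟩).trans (IsometryEquiv.addRight (ctr (grp j)))) y
          = ((g (grp i) ⟨i, rfl⟩).trans (IsometryEquiv.addRight (ctr (grp i)))) x := hxy
      rw [key i (grp i) rfl x, key j (grp j) rfl y] at h1
      have hx1 : g (grp i) ⟨i, rfl⟩ x ∈ stdCube k (c / √k) := hg1 (grp i) ⟨i, rfl⟩ ⟨x, hx, rfl⟩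
      have hy1 : g (grp j) ⟨j, rfl⟩ y ∈ stdCube k (c / √k) := hg1 (grp j) ⟨j, rfl⟩ ⟨y, hy, rfl⟩
      have hx2 := abs_le.mp (hx1 l)
      have hy2 := abs_le.mp (hy1 l)
      have h2 : g (grp j) ⟨j, rfl⟩ y l + ctr (grp j) l = g (grp i) ⟨i, rfl⟩ x l + ctr (grp i) l :=
        congrArg (fun z : E k => z l) h1
      rw [hctrv, hctrv] at h2
      have hne : (cell (grp i) l : ℕ) ≠ (cell (grp j) l : ℕ) := fun hh => hl (Fin.ext hh)
      rcases Nat.lt_or_gt_of_ne hne with hlt | hlt
      · have h3 : ((cell (grp i) l : ℕ) : ℝ) + 1 ≤ ((cell (grp j) l : ℕ) : ℝ) := by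
          exact_mod_cast hlt
        nlinarith [mul_le_mul_of_nonneg_right h3 hs0.le]
      · have h3 : ((cell (grp j) l : ℕ) : ℝ) + 1 ≤ ((cell (grp i) l : ℕ) : ℝ) := by
          exact_mod_cast hlt
        nlinarith [mul_le_mul_of_nonneg_right h3 hs0.le]

end Pool.Agent.Potatoes.LV
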