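import Pool.Agent.Work.MP_72041b_co.LV.Stmts

set_option autoImplicit false

/-!
# MP_72041b_co, block LV, item Lim: existence of the limit
-/

namespace Pool.Agent.Potatoes.LV

open MeasureTheory Set Metric
open scoped RealInnerProductSpace Pointwise

namespace AuxLim

theorem lower_pow {e b : ℝ} (he : 0 ≤ e) (he1 : e ≤ 1) (hb : 1 < b) :
    b ^ e - b ^ e / b ≤ (b - 1) ^ e := by
  have hb0 : 0 < b := by linarith
  have h1 : 0 < 1 - 1 / b := by
    rw [sub_pos, div_lt_one hb0]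
    exact hb
  have h2 : 1 - 1 / b ≤ 1 := by
    have : 0 < 1 / b := by positivity
    linarith
  have h3 : (1 - 1 / b) ≤ (1 - 1 / b) ^ e := by
    have h4 := Real.rpow_le_rpow_of_exponent_ge h1 h2 he1
    rwa [Real.rpow_one] at h4
  have h5 : b - 1 = b * (1 - 1 / b) := by
    field_simp
  rw [h5, Real.mul_rpow hb0.le h1.le]
  have h6 : b ^ e - b ^ e / b = b ^ e * (1 - 1 / b) := by ring
  rw [h6]
  exact mul_le_mul_of_nonneg_left h3 (Real.rpow_nonneg hb0.le e)

end AuxLim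

open AuxLim in
theorem pr_Lim : S_Lim := by
  intro k F α hk hα h1 h2
  have hk0 : (0 : ℝ) < k := by
    have : 0 < k := by omega
    exact_mod_cast this
  have hk1 : (1 : ℝ) ≤ k := by
    have : 1 ≤ k := by omega
    exact_mod_cast this
  set e : ℝ := 1 / (k : ℝ) with he
  have he0 : 0 < e := by positivity
  have he1 : e ≤ 1 := by
    rw [he, div_le_one hk0]
    exact hk1
  have hFpos : ∀ b : ℝ, 0 < b → 0 < F b := fun b hb =>
    lt_of_lt_of_le (mul_pos hα (Real.rpow_pos_of_pos hb e)) (h1 b hb)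
  let G : {v : ℝ // 1 < v} → ℝ := fun v => F v / ((v : ℝ) - 1) ^ e
  have hG : ∀ v, 0 ≤ G v := fun v => by
    have hv : 0 < (v : ℝ) - 1 := by
      have := v.2
      linarith
    exact div_nonneg (hFpos v (by linarith)).le (Real.rpow_nonneg hv.le e)
  have hbdd : BddBelow (Set.range G) := ⟨0, by rintro _ ⟨v, rfl⟩; exact hG v⟩
  haveI : Nonempty {v : ℝ // 1 < v} := ⟨⟨2, by norm_num⟩⟩
  set L : ℝ := ⨅ v, G v with hL
  have hL0 : 0 ≤ L := le_ciInf hG
  have hsec : ∀ v : ℝ, 1 < v → L * (v - 1) ^ e ≤ F v := by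
    intro v hv
    have hv' : 0 < (v - 1) ^ e := Real.rpow_pos_of_pos (by linarith) e
    have h3 : L ≤ F v / (v - 1) ^ e := ciInf_le hbdd (⟨v, hv⟩ : {v : ℝ // 1 < v})
    rwa [le_div_iff₀ hv'] at h3
  refine ⟨L, ?_, hsec⟩
  intro ε hε
  obtain ⟨⟨v, hv⟩, hv2⟩ := exists_lt_of_ciInf_lt (show ⨅ v, G v < L + ε / 2 by
    rw [← hL]; linarith)
  have hv1 : 0 < v - 1 := by linarith
  have hv1e : 0 < (v - 1) ^ e := Real.rpow_pos_of_pos hv1 e
  have hv3 : F v / (v - 1) ^ e < L + ε / 2 := hv2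
  have hFv := hFpos v (by linarith)
  refine ⟨max 2 (max (L / ε) ((2 * F v / ε) ^ (k : ℕ))), lt_of_lt_of_le (by norm_num)
    (le_max_left _ _), ?_⟩
  intro b hb
  have hb2 : 2 ≤ b := (le_max_left _ _).trans hb
  have hbL : L / ε ≤ b := ((le_max_left _ _).trans (le_max_right _ _)).trans hb
  have hbF : (2 * F v / ε) ^ (k : ℕ) ≤ b := ((le_max_right _ _).trans (le_max_right _ _)).trans hb
  have hb0 : 0 < b := by linarith
  have hbe : 0 < b ^ e := Real.rpow_pos_of_pos hb0 e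
  rw [abs_le]
  constructor
  · have h3 := hsec b (by linarith)
    have h4 := lower_pow he0.le he1 (show 1 < b by linarith)
    have h5 : L * (b ^ e - b ^ e / b) ≤ L * (b - 1) ^ e := mul_le_mul_of_nonneg_left h4 hL0
    have h6 : L * (b ^ e / b) ≤ ε * b ^ e := by
      rw [div_le_iff₀ hε] at hbL
      have h7 : L * (b ^ e / b) = (L / b) * b ^ e := by ring
      rw [h7]
      apply mul_le_mul_of_nonneg_right _ hbe.le
      rw [div_le_iff₀ hb0]
      linarith [mul_comm b ε]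
    have h8 : L * (b ^ e - b ^ e / b) = L * b ^ e - L * (b ^ e / b) := by ring
    linarith
  · set x : ℝ := (b / (v - 1)) ^ e with hx
    have hq : 0 < b / (v - 1) := div_pos hb0 hv1
    have hx0 : 0 < x := Real.rpow_pos_of_pos hq e
    have hN1 : 1 ≤ ⌈x⌉₊ := Nat.one_le_ceil_iff.2 hx0
    have hxk : x ^ k = b / (v - 1) := by
      rw [hx, he, one_div]
      exact Real.rpow_inv_natCast_pow hq.le (by omega)
    have hNk : b ≤ (v - 1) * ((⌈x⌉₊ : ℕ) : ℝ) ^ k := by
      have h3 : x ^ k ≤ ((⌈x⌉₊ : ℕ) : ℝ) ^ k := pow_le_pow_left₀ hx0.le (Nat.le_ceil x) k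
      rw [hxk, div_le_iff₀ hv1] at h3
      linarith [mul_comm (v - 1) (((⌈x⌉₊ : ℕ) : ℝ) ^ k)]
    have h3 := h2 v b ⌈x⌉₊ hv hb0 hN1 hNk
    have h4 : ((⌈x⌉₊ : ℕ) : ℝ) ≤ x + 1 := (Nat.ceil_lt_add_one hx0.le).le
    have h5 : ((⌈x⌉₊ : ℕ) : ℝ) * F v ≤ (x + 1) * F v := mul_le_mul_of_nonneg_right h4 hFv.le
    have h6 : x * F v = b ^ e * (F v / (v - 1) ^ e) := by
      rw [hx, Real.div_rpow hb0.le hv1.le]
      ring
    have h7 : b ^ e * (F v / (v - 1) ^ e) ≤ b ^ e * (L + ε / 2) :=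
      mul_le_mul_of_nonneg_left hv3.le hbe.le
    have h8 : 2 * F v / ε ≤ b ^ e := by
      have h9 : 0 ≤ 2 * F v / ε := by positivity
      have h10 : ((2 * F v / ε) ^ (k : ℕ)) ^ e ≤ b ^ e :=
        Real.rpow_le_rpow (by positivity) hbF he0.le
      have h11 : ((2 * F v / ε) ^ (k : ℕ)) ^ e = 2 * F v / ε := by
        rw [he, one_div]
        exact Real.pow_rpow_inv_natCast h9 (by omega)
      rwa [h11] at h10
    rw [div_le_iff₀ hε] at h8
    have h9 : (x + 1) * F v = x * F v + F v := by ring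
    rw [h9, h6] at h5
    have h10 : b ^ e * (L + ε / 2) = L * b ^ e + ε * b ^ e / 2 := by ring
    linarith [mul_comm (b ^ e) ε]

end Pool.Agent.Potatoes.LV
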