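import Pool.Agent.Work.MP_72041b_co.LV.Stmts

set_option autoImplicit false

/-!
# MP_72041b_co, block LV, item LowB: the lower bound by balls
-/

namespace Pool.Agent.Potatoes.LV

open MeasureTheory Set Metric
open scoped RealInnerProductSpace Pointwise

namespace AuxLowB

/-- the closed ball of radius `1/2` is a body -/
lemma body (k : ℕ) : IsBody (closedBall (0 : E k) (1 / 2)) where
  compact := isCompact_closedBall _ _
  convex := convex_closedBall _ _
  inner := ⟨0, ball_subset_interior_closedBall (mem_ball_self (by norm_num))⟩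

lemma diam_le (k : ℕ) : diam (closedBall (0 : E k) (1 / 2)) ≤ 1 := by
  have h := diam_closedBall (x := (0 : E k)) (r := 1 / 2) (by norm_num)
  linarith

/-- volumes of the closed and of the open ball -/
lemma vol_eq {k : ℕ} (hk : 0 < k) :
    volume (closedBall (0 : E k) (1 / 2)) = volume (ball (0 : E k) (1 / 2)) := by
  have : Nonempty (Fin k) := ⟨⟨0, hk⟩⟩
  have : Nontrivial (E k) := by
    have h : 0 < Module.finrank ℝ (E k) := by
      rw [finrank_euclideanSpace_fin]
      exact hk
    exact Module.nontrivial_of_finrank_pos h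
  exact Measure.addHaar_closedBall_eq_addHaar_ball _ _ _

lemma vol_pos (k : ℕ) : 0 < volume.real (ball (0 : E k) (1 / 2)) := by
  rw [measureReal_def]
  exact ENNReal.toReal_pos (measure_ball_pos _ _ (by norm_num)).ne' measure_ball_lt_top.ne

end AuxLowB

theorem pr_LowB (h1 : S_Vol1) (h2 : S_Bli) : S_LowB := by
  intro k t c hk ht hc hW
  have hk0 : 0 < k := by omega
  have hveq := AuxLowB.vol_eq hk0
  have hω0 := AuxLowB.vol_pos k
  have hω1 : volume.real (ball (0 : E k) (1 / 2)) ≤ 1 := by
    have h := h1 k _ (AuxLowB.body k) (AuxLowB.diam_le k)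
    rw [measureReal_def, hveq] at h
    exact h
  have hvolω : volume (closedBall (0 : E k) (1 / 2)) =
      ENNReal.ofReal (volume.real (ball (0 : E k) (1 / 2))) := by
    rw [hveq, measureReal_def, ENNReal.ofReal_toReal measure_ball_lt_top.ne]
  generalize hω : volume.real (ball (0 : E k) (1 / 2)) = ω at hω0 hω1 hvolω
  have ht0 : 0 ≤ t / ω := by positivity
  obtain ⟨N, hN1, hN2⟩ : ∃ N : ℕ, (N : ℝ) ≤ t / ω ∧ t / ω < N + 1 :=
    ⟨⌊t / ω⌋₊, Nat.floor_le ht0, Nat.lt_floor_add_one _⟩
  have hNle : (N : ℝ) * ω ≤ t := (le_div_iff₀ hω0).mp hN1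
  have hNge : t - 1 ≤ (N : ℝ) * ω := by
    have h := (div_lt_iff₀ hω0).mp hN2
    nlinarith
  have hstd := ((claimStd k 1 t c hk0 hc).1.mp hW) (Fin N)
    (fun _ => closedBall (0 : E k) (1 / 2)) (fun _ => AuxLowB.body k)
    (fun _ => AuxLowB.diam_le k) (by
      rw [tsum_fintype, Finset.sum_const, Finset.card_univ, Fintype.card_fin, hvolω,
        nsmul_eq_mul, ← ENNReal.ofReal_natCast, ← ENNReal.ofReal_mul (Nat.cast_nonneg N)]
      exact ENNReal.ofReal_le_ofReal hNle)
  obtain ⟨g, hg1, hg2⟩ := hstd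
  have hB := h2 k N (c / √k) (fun i => g i 0) hk0 (by positivity)
    (by
      intro i l
      exact hg1 i ⟨0, mem_closedBall_self (by norm_num), rfl⟩ l)
    (by
      intro i j hij
      have h := hg2 i j hij
      rw [IsometryEquiv.image_closedBall, IsometryEquiv.image_closedBall,
        disjoint_closedBall_closedBall_iff (by norm_num) (by norm_num)] at h
      linarith)
  rw [hω] at hB
  refine le_trans ?_ hB
  have hX : 0 ≤ √2 ^ k * (2 / ((k : ℝ) + 2)) := by positivity
  calc (t - 1) * (√2 ^ k * (2 / ((k : ℝ) + 2)))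
      ≤ ((N : ℝ) * ω) * (√2 ^ k * (2 / ((k : ℝ) + 2))) := mul_le_mul_of_nonneg_right hNge hX
    _ = (N : ℝ) * (ω * (√2 ^ k * (2 / ((k : ℝ) + 2)))) := by ring

end Pool.Agent.Potatoes.LV
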