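import Pool.Agent.Work.MP_72041b_co.LV.Stmts

set_option autoImplicit false

namespace Pool.Agent.Potatoes.LV

open MeasureTheory Set Metric Filter Topology
open scoped RealInnerProductSpace Pointwise

namespace AuxMain

theorem root_mul {k : ℕ} (hk : 2 ≤ k) {a v : ℝ} (ha : 0 < a) (hv : 0 ≤ v) :
    (a ^ k * v) ^ (1 / (k : ℝ)) = a * v ^ (1 / (k : ℝ)) := by
  have hk0 : (k : ℝ) ≠ 0 := by
    have : 0 < k := by omega
    positivity
  rw [Real.mul_rpow (by positivity) hv]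
  congr 1
  rw [← Real.rpow_natCast, ← Real.rpow_mul ha.le, mul_one_div_cancel hk0, Real.rpow_one]

theorem up (F : ℝ → ℝ) (L r θ t₀ : ℝ)
    (hLim : ∀ ε : ℝ, 0 < ε → ∃ B : ℝ, 0 < B ∧ ∀ b : ℝ, B ≤ b →
      |F b - L * b ^ r| ≤ ε * b ^ r) (h : ∀ t, t₀ ≤ t → F t ≤ θ * t ^ r) : L ≤ θ := by
  apply le_of_forall_pos_le_add
  intro ε hε
  obtain ⟨B, hB, hb⟩ := hLim ε hε
  have ht : 0 < max B t₀ := lt_of_lt_of_le hB (le_max_left _ _)
  have h1 := hb (max B t₀) (le_max_left _ _)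
  have h2 := h (max B t₀) (le_max_right _ _)
  have h3 : 0 < (max B t₀) ^ r := Real.rpow_pos_of_pos ht r
  have h4 := (abs_le.1 h1).1
  by_contra hc
  push Not at hc
  have h5 : (θ + ε) * (max B t₀) ^ r < L * (max B t₀) ^ r := mul_lt_mul_of_pos_right hc h3
  linarith

theorem f_le {k : ℕ} {a b c : ℝ} (hc : 0 < c) (h : Works k a b c) : f k a b ≤ c :=
  csInf_le ⟨0, fun _ hy => hy.1.le⟩ ⟨hc, h⟩

theorem f_nonneg (k : ℕ) (a b : ℝ) : 0 ≤ f k a b :=
  Real.sInf_nonneg (fun _ hy => hy.1.le)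

theorem le_f {k : ℕ} (hk : 2 ≤ k) {b x : ℝ} (hb : 0 < b)
    (h : ∀ c, 0 < c → Works k 1 b c → x ≤ c) : x ≤ f k 1 b := by
  obtain ⟨n, rfl⟩ : ∃ n, k = n + 1 := ⟨k - 1, by omega⟩
  obtain ⟨C, hC, hW⟩ := (claimLarge claimStd claimBox_all claimBins_all) n (by omega)
  refine le_csInf ⟨C * (1 + b ^ (1 / ((n : ℝ) + 1))), ?_, hW b hb⟩ (fun c hc => h c hc.1 hc.2)
  positivity

theorem vol {k : ℕ} (hk : 2 ≤ k) {b : ℝ} (hb : 0 < b) :
    √(k : ℝ) * b ^ (1 / (k : ℝ)) ≤ f k 1 b := by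
  apply le_f hk hb
  intro c hc hW
  obtain ⟨n, rfl⟩ : ∃ n, k = n + 1 := ⟨k - 1, by omega⟩
  have h := (claimVol claimStd) n (by omega) b c hb hc hW
  push_cast
  exact h

end AuxMain

open AuxMain in
/-- the theorem -/
theorem pr_Main (h1 : S_fS) (h2 : S_fG) (h3 : S_Lim) (h4 : S_LowB) (h5 : S_Up4) (h6 : S_Up2) :
    S_Main := by
  have hAll : ∀ k : ℕ, ∃ L : ℝ, 2 ≤ k → ((∀ ε : ℝ, 0 < ε → ∃ B : ℝ, 0 < B ∧ ∀ b : ℝ, B ≤ b →
      |f k 1 b - L * b ^ (1 / (k : ℝ))| ≤ ε * b ^ (1 / (k : ℝ))) ∧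
      ∀ v : ℝ, 1 < v → L * (v - 1) ^ (1 / (k : ℝ)) ≤ f k 1 v) := by
    intro k
    by_cases hk : 2 ≤ k
    · have hk0 : 0 < k := by omega
      obtain ⟨L, hL⟩ := h3 k (f k 1) √k hk (Real.sqrt_pos.2 (by positivity))
        (fun b hb => vol hk hb)
        (fun v b N hv hb hN hbN => h2 k N v b hk hN hv hb hbN)
      exact ⟨L, fun _ => hL⟩
    · exact ⟨0, fun h => absurd h hk⟩
  choose L hL using hAll
  refine ⟨L, ?_, ?_⟩
  · apply le_of_forall_pos_le_add
    intro δ hδ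
    obtain ⟨t₀, ht₀, hW⟩ := h6 (2 + δ) (by linarith)
    refine up (f 2 1) (L 2) (1 / ((2 : ℕ) : ℝ)) (2 + δ) t₀ (hL 2 le_rfl).1 ?_
    intro t ht
    have ht0 : 0 < t := lt_of_lt_of_le ht₀ ht
    have e : (1 : ℝ) / ((2 : ℕ) : ℝ) = 1 / 2 := by norm_num
    rw [e]
    exact f_le (by positivity) (hW t ht)
  · intro k hk
    have hk0 : 0 < k := by omega
    have hkr : (0 : ℝ) < k := by exact_mod_cast hk0
    have hr : 0 < 1 / (k : ℝ) := by positivity
    obtain ⟨hLim, hLow⟩ := hL k hk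
    refine ⟨?_, ?_, ?_, ?_⟩
    · intro ε hε
      obtain ⟨B, hB, hb⟩ := hLim ε hε
      refine ⟨B, hB, ?_⟩
      intro a b ha hab
      have hak : 0 < a ^ k := by positivity
      have hb0 : 0 < b := lt_of_lt_of_le (by positivity) hab
      have hv : B ≤ b / a ^ k := by rw [le_div_iff₀ hak]; exact hab
      have hv0 : 0 ≤ b / a ^ k := by positivity
      have e : b ^ (1 / (k : ℝ)) = a * (b / a ^ k) ^ (1 / (k : ℝ)) := by
        rw [← root_mul hk ha hv0]
        congr 1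
        field_simp
      rw [h1 k a b hk ha hb0, e]
      have h7 := hb _ hv
      have e2 : a * f k 1 (b / a ^ k) - L k * (a * (b / a ^ k) ^ (1 / (k : ℝ))) =
          a * (f k 1 (b / a ^ k) - L k * (b / a ^ k) ^ (1 / (k : ℝ))) := by ring
      rw [e2, abs_mul, abs_of_pos ha]
      calc a * |f k 1 (b / a ^ k) - L k * (b / a ^ k) ^ (1 / (k : ℝ))|
          ≤ a * (ε * (b / a ^ k) ^ (1 / (k : ℝ))) := mul_le_mul_of_nonneg_left h7 ha.le
        _ = ε * (a * (b / a ^ k) ^ (1 / (k : ℝ))) := by ring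
    · intro a b ha hab
      have hak : 0 < a ^ k := by positivity
      rcases eq_or_lt_of_le hab with h | h
      · rw [← h, sub_self, Real.zero_rpow hr.ne', mul_zero]
        exact f_nonneg _ _ _
      · have hb0 : 0 < b := lt_trans hak h
        have hv : 1 < b / a ^ k := by rw [lt_div_iff₀ hak]; linarith
        have e : (b - a ^ k) ^ (1 / (k : ℝ)) = a * (b / a ^ k - 1) ^ (1 / (k : ℝ)) := by
          rw [← root_mul hk ha (by linarith)]
          congr 1
          field_simp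
        rw [h1 k a b hk ha hb0, e]
        calc L k * (a * (b / a ^ k - 1) ^ (1 / (k : ℝ)))
            = a * (L k * (b / a ^ k - 1) ^ (1 / (k : ℝ))) := by ring
          _ ≤ a * f k 1 (b / a ^ k) := mul_le_mul_of_nonneg_left (hLow _ hv) ha.le
    · -- lower bound
      set γ : ℝ := √2 ^ k * (2 / ((k : ℝ) + 2)) with hγ
      have hγ0 : 0 < γ := by
        rw [hγ]
        have : 0 < √(2 : ℝ) := Real.sqrt_pos.2 two_pos
        positivity
      have hγr : γ ^ (1 / (k : ℝ)) = √2 * (2 / ((k : ℝ) + 2)) ^ (1 / (k : ℝ)) := by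
        rw [hγ]
        exact root_mul hk (Real.sqrt_pos.2 two_pos) (by positivity)
      rw [← hγr]
      have hsk : 0 < √(k : ℝ) := Real.sqrt_pos.2 hkr
      apply le_of_forall_pos_le_add
      intro ε hε
      obtain ⟨B, hB, hb⟩ := hLim ε hε
      have hev : ∀ᶠ t : ℝ in atTop, √(k : ℝ) * ((1 - t⁻¹) ^ (1 / (k : ℝ)) * γ ^ (1 / (k : ℝ)) -
          √2 * t ^ (-(1 / (k : ℝ)))) ≤ L k + ε := by
        filter_upwards [eventually_ge_atTop B, eventually_gt_atTop 1] with t ht1 ht2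
        have ht0 : 0 < t := by linarith
        have htr : 0 < t ^ (1 / (k : ℝ)) := Real.rpow_pos_of_pos ht0 _
        have h7 : √(k : ℝ) * (((t - 1) * γ) ^ (1 / (k : ℝ)) - √2) ≤ f k 1 t := by
          apply le_f hk ht0
          intro c hc hW
          have h8 := h4 k t c hk ht2 hc hW
          rw [← hγ] at h8
          have h9 : ((t - 1) * γ) ^ (1 / (k : ℝ)) ≤ c / √k + √2 := by
            calc ((t - 1) * γ) ^ (1 / (k : ℝ)) ≤ ((c / √k + √2) ^ k) ^ (1 / (k : ℝ)) := by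
                  apply Real.rpow_le_rpow _ h8 hr.le
                  exact mul_nonneg (by linarith) hγ0.le
              _ = c / √k + √2 := by
                  have h10 : 0 < c / √k + √2 := by positivity
                  have h11 := root_mul (k := k) hk h10 (zero_le_one)
                  rw [mul_one, Real.one_rpow, mul_one] at h11
                  exact h11
          have h12 : √(k : ℝ) * (((t - 1) * γ) ^ (1 / (k : ℝ)) - √2) ≤ √(k : ℝ) * (c / √k) :=
            mul_le_mul_of_nonneg_left (by linarith) hsk.le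
          have h13 : √(k : ℝ) * (c / √k) = c := by field_simp
          linarith
        have h14 : f k 1 t ≤ (L k + ε) * t ^ (1 / (k : ℝ)) := by
          have := (abs_le.1 (hb t ht1)).2
          linarith
        have h15 : ((t - 1) * γ) ^ (1 / (k : ℝ)) =
            t ^ (1 / (k : ℝ)) * ((1 - t⁻¹) ^ (1 / (k : ℝ)) * γ ^ (1 / (k : ℝ))) := by
          have e1 : (t - 1) * γ = t * ((1 - t⁻¹) * γ) := by field_simp
          have e2 : 0 ≤ 1 - t⁻¹ := by
            have := inv_lt_one_of_one_lt₀ ht2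
            linarith
          rw [e1, Real.mul_rpow ht0.le (mul_nonneg e2 hγ0.le), Real.mul_rpow e2 hγ0.le]
        have h16 : t ^ (1 / (k : ℝ)) * t ^ (-(1 / (k : ℝ))) = 1 := by
          rw [← Real.rpow_add ht0, add_neg_cancel, Real.rpow_zero]
        have h17 : t ^ (1 / (k : ℝ)) * (√(k : ℝ) * ((1 - t⁻¹) ^ (1 / (k : ℝ)) *
            γ ^ (1 / (k : ℝ)) - √2 * t ^ (-(1 / (k : ℝ))))) ≤ t ^ (1 / (k : ℝ)) * (L k + ε) := by
          calc t ^ (1 / (k : ℝ)) * (√(k : ℝ) * ((1 - t⁻¹) ^ (1 / (k : ℝ)) *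
                γ ^ (1 / (k : ℝ)) - √2 * t ^ (-(1 / (k : ℝ)))))
              = √(k : ℝ) * (t ^ (1 / (k : ℝ)) * ((1 - t⁻¹) ^ (1 / (k : ℝ)) *
                γ ^ (1 / (k : ℝ))) - √2 * (t ^ (1 / (k : ℝ)) * t ^ (-(1 / (k : ℝ))))) := by
                ring
            _ = √(k : ℝ) * (((t - 1) * γ) ^ (1 / (k : ℝ)) - √2) := by
                rw [h16, ← h15, mul_one]
            _ ≤ f k 1 t := h7
            _ ≤ (L k + ε) * t ^ (1 / (k : ℝ)) := h14
            _ = t ^ (1 / (k : ℝ)) * (L k + ε) := by ring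
        exact le_of_mul_le_mul_left h17 htr
      have htend : Tendsto (fun t : ℝ => √(k : ℝ) * ((1 - t⁻¹) ^ (1 / (k : ℝ)) *
          γ ^ (1 / (k : ℝ)) - √2 * t ^ (-(1 / (k : ℝ))))) atTop
          (𝓝 (√(k : ℝ) * ((1 - 0) ^ (1 / (k : ℝ)) * γ ^ (1 / (k : ℝ)) - √2 * 0))) := by
        apply Tendsto.const_mul
        apply Tendsto.sub
        · apply Tendsto.mul_const
          apply Tendsto.rpow_const
          · exact tendsto_const_nhds.sub tendsto_inv_atTop_zero
          · left; norm_num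
        · exact (tendsto_rpow_neg_atTop hr).const_mul _
      have hfin := le_of_tendsto htend hev
      rw [sub_zero, Real.one_rpow, one_mul, mul_zero, sub_zero] at hfin
      exact hfin
    · apply le_of_forall_pos_le_add
      intro δ hδ
      have hsk : 0 < √(k : ℝ) := Real.sqrt_pos.2 hkr
      obtain ⟨t₀, ht₀, hW⟩ := h5 k (4 + δ / √k) hk (by
        have : 0 < δ / √(k : ℝ) := by positivity
        linarith)
      have h7 := up (f k 1) (L k) (1 / (k : ℝ)) (√k * (4 + δ / √k)) t₀ hLim (by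
        intro t ht
        have ht0 : 0 < t := lt_of_lt_of_le ht₀ ht
        have h8 := f_le (by positivity) (hW t ht)
        rw [mul_assoc]
        exact h8)
      have h9 : √(k : ℝ) * (4 + δ / √k) = 4 * √k + δ := by field_simp
      linarith

end Pool.Agent.Potatoes.LV
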