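import Pool.Agent.Work.MP_72041b_co.LV.Stmts

set_option autoImplicit false

namespace Pool.Agent.Potatoes.LV

open MeasureTheory Set Metric
open scoped RealInnerProductSpace Pointwise

namespace AuxPck

/-- the weight of a class -/
noncomputable def w {k : ℕ} (q : Fin k → ℕ) : ℝ := ∏ l, (1 / 2 : ℝ) ^ q l

lemma w_pos {k : ℕ} (q : Fin k → ℕ) : 0 < w q := Finset.prod_pos fun _ _ => by positivity

lemma w_two {k : ℕ} (q : Fin k → ℕ) : (∏ l, 2 * (1 / 2 : ℝ) ^ q l) = 2 ^ k * w q := by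
  rw [Finset.prod_mul_distrib, Finset.prod_const, Finset.card_univ, Fintype.card_fin]
  rfl

/-- the parameters -/
lemma params (k : ℕ) (hk : 0 < k) (θ : ℝ) (hθ : 4 < θ) : ∃ M δ : ℝ, 1 < M ∧ 0 < δ ∧ δ < 1 ∧
    (1 + δ) * 4 ^ k * ((M + 1) / (M - 1)) ^ k < (1 - δ) * θ ^ k := by
  have hr1 : 1 < θ / 4 := by linarith
  have h1 : 1 < (1 + θ / 4) / 2 := by linarith
  have h2 : (1 + θ / 4) / 2 < θ / 4 := by linarith
  set ρ := (1 + θ / 4) / 2 with hρ
  have hxy : ρ ^ k < (θ / 4) ^ k := pow_lt_pow_left₀ h2 (by linarith) hk.ne'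
  have hx : 0 < ρ ^ k := by positivity
  set x := ρ ^ k with hxd
  set y := (θ / 4) ^ k with hyd
  have hM : ((ρ + 1) / (ρ - 1) + 1) / ((ρ + 1) / (ρ - 1) - 1) = ρ := by
    have : ρ - 1 ≠ 0 := by linarith
    field_simp
    ring
  refine ⟨(ρ + 1) / (ρ - 1), (y - x) / (2 * (x + y)), ?_, ?_, ?_, ?_⟩
  · rw [lt_div_iff₀ (by linarith)]
    linarith
  · exact div_pos (by linarith) (by linarith)
  · rw [div_lt_one (by linarith)]
    linarith
  · rw [hM]
    have h3 : θ ^ k = 4 ^ k * y := by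
      rw [hyd, ← mul_pow]
      congr 1
      ring
    rw [h3]
    have h4 : (1 + (y - x) / (2 * (x + y))) * x < (1 - (y - x) / (2 * (x + y))) * y := by
      have h0 : x + y ≠ 0 := by linarith
      have h5 : (y - x) / (2 * (x + y)) * (x + y) = (y - x) / 2 := by
        field_simp
      nlinarith
    have h6 : (0 : ℝ) < 4 ^ k := by positivity
    calc (1 + (y - x) / (2 * (x + y))) * 4 ^ k * x
        = 4 ^ k * ((1 + (y - x) / (2 * (x + y))) * x) := by ring
      _ < 4 ^ k * ((1 - (y - x) / (2 * (x + y))) * y) := mul_lt_mul_of_pos_left h4 h6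
      _ = (1 - (y - x) / (2 * (x + y))) * (4 ^ k * y) := by ring

/-- finite sums of the weights -/
lemma sum_w {k m : ℕ} (G : Finset ((Fin k → ℕ) × Fin m)) :
    ∑ g ∈ G, w g.1 ≤ m * 2 ^ k := by
  classical
  obtain ⟨n, hn⟩ : ∃ n : ℕ, ∀ g ∈ G, ∀ l, g.1 l < n := by
    refine ⟨(∑ g ∈ G, ∑ l, g.1 l) + 1, fun g hg l => Nat.lt_succ_of_le ?_⟩
    calc g.1 l ≤ ∑ l, g.1 l := Finset.single_le_sum (f := g.1) (fun _ _ => Nat.zero_le _)
          (Finset.mem_univ l)
      _ ≤ ∑ g ∈ G, ∑ l, g.1 l := Finset.single_le_sum (f := fun g => ∑ l, g.1 l)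
          (fun _ _ => Nat.zero_le _) hg
  have hsub : G ⊆ (Fintype.piFinset fun _ : Fin k => Finset.range n) ×ˢ Finset.univ := by
    intro g hg
    rw [Finset.mem_product, Fintype.mem_piFinset]
    exact ⟨fun l => Finset.mem_range.2 (hn g hg l), Finset.mem_univ _⟩
  refine (Finset.sum_le_sum_of_subset_of_nonneg hsub fun g _ _ => (w_pos g.1).le).trans ?_
  rw [Finset.sum_product]
  simp only [Finset.sum_const, Finset.card_univ, Fintype.card_fin, nsmul_eq_mul]
  rw [← Finset.mul_sum]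
  refine mul_le_mul_of_nonneg_left ?_ (Nat.cast_nonneg m)
  unfold w
  rw [← Finset.prod_univ_sum]
  have h1 : ∑ j ∈ Finset.range n, (1 / 2 : ℝ) ^ j ≤ 2 := by
    have := geom_sum_eq (x := (1 / 2 : ℝ)) (by norm_num) n
    rw [this]
    have h2 : (0 : ℝ) < (1 / 2) ^ n := by positivity
    have h3 : ((1 / 2 : ℝ) ^ n - 1) / (1 / 2 - 1) = 2 - 2 * (1 / 2) ^ n := by ring
    rw [h3]
    linarith
  have h2 : ∏ _l : Fin k, ∑ j ∈ Finset.range n, (1 / 2 : ℝ) ^ j ≤ ∏ _l : Fin k, (2 : ℝ) :=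
    Finset.prod_le_prod (fun _ _ => Finset.sum_nonneg fun _ _ => by positivity) fun _ _ => h1
  simpa using h2

/-- distinct naturals which are at most `T` -/
lemma card_le (S : Finset ℕ) (T : ℝ) (hT : 0 ≤ T) (h : ∀ j ∈ S, (j : ℝ) ≤ T) :
    (S.card : ℝ) ≤ T + 1 := by
  have h1 : S ⊆ Finset.range (⌊T⌋₊ + 1) := by
    intro j hj
    rw [Finset.mem_range]
    exact Nat.lt_succ_of_le (Nat.le_floor (h j hj))
  have h2 := Finset.card_le_card h1
  rw [Finset.card_range] at h2
  have h3 : (S.card : ℝ) ≤ ((⌊T⌋₊ + 1 : ℕ) : ℝ) := by exact_mod_cast h2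
  refine h3.trans ?_
  push_cast
  have := Nat.floor_le hT
  linarith

/-- the total weight of the used pallets -/
lemma total {k m : ℕ} {ι : Type} (cls : ι → (Fin k → ℕ) × Fin m) (pal : ι → ℕ) (v : ι → ℝ)
    (hv : ∀ i, 0 ≤ v i) (R : ℝ) (hR : 0 ≤ R) (hs : Summable fun i => w (cls i).1 * v i)
    (hpal : ∀ i, (pal i : ℝ) ≤ R * ∑' j : {j // cls j = cls i}, v j) :
    (Summable fun b : range fun i => (cls i, pal i) => w b.1.1.1) ∧
      ∑' b : range fun i => (cls i, pal i), w b.1.1.1 ≤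
        m * 2 ^ k + R * ∑' i, w (cls i).1 * v i := by
  classical
  have hV : ∀ g, w g.1 * ∑' j : {j // cls j = g}, v j =
      ∑' i, if cls i = g then w (cls i).1 * v i else 0 := by
    intro g
    rw [← tsum_mul_left]
    have h1 : ∀ j : {j // cls j = g}, w g.1 * v j = w (cls j).1 * v j := by
      rintro ⟨j, rfl⟩
      rfl
    rw [tsum_congr h1]
    refine (tsum_subtype {j | cls j = g} fun j => w (cls j).1 * v j).trans ?_
    refine tsum_congr fun i => ?_
    rw [indicator_apply]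
    rfl
  have key : ∀ u : Finset (range fun i => (cls i, pal i)),
      ∑ b ∈ u, w b.1.1.1 ≤ m * 2 ^ k + R * ∑' i, w (cls i).1 * v i := by
    intro u
    let G : Finset ((Fin k → ℕ) × Fin m) := u.image fun b => b.1.1
    have h1 : ∑ b ∈ u, w b.1.1.1 = ∑ g ∈ G, ∑ b ∈ u.filter (fun b => b.1.1 = g), w b.1.1.1 :=
      (Finset.sum_fiberwise_of_maps_to (fun b hb => Finset.mem_image_of_mem _ hb) _).symm
    have h2 : ∀ g ∈ G, ∑ b ∈ u.filter (fun b => b.1.1 = g), w b.1.1.1 ≤
        w g.1 + R * (w g.1 * ∑' j : {j // cls j = g}, v j) := by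
      intro g hg
      have h3 : ∑ b ∈ u.filter (fun b => b.1.1 = g), w b.1.1.1 =
          ((u.filter fun b => b.1.1 = g).card : ℝ) * w g.1 := by
        rw [← nsmul_eq_mul, ← Finset.sum_const]
        refine Finset.sum_congr rfl fun b hb => ?_
        rw [(Finset.mem_filter.1 hb).2]
      have h4 : (u.filter fun b => b.1.1 = g).card =
          ((u.filter fun b => b.1.1 = g).image fun b => b.1.2).card := by
        symm
        apply Finset.card_image_of_injOn
        intro b hb b' hb' hbb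
        have e1 := (Finset.mem_filter.1 (Finset.mem_coe.1 hb)).2
        have e2 := (Finset.mem_filter.1 (Finset.mem_coe.1 hb')).2
        exact Subtype.ext (Prod.ext (e1.trans e2.symm) hbb)
      have h5 : (((u.filter fun b => b.1.1 = g).image fun b => b.1.2).card : ℝ) ≤
          R * (∑' j : {j // cls j = g}, v j) + 1 := by
        refine card_le _ _ (mul_nonneg hR (tsum_nonneg fun j => hv j)) ?_
        intro j hj
        obtain ⟨b, hb, rfl⟩ := Finset.mem_image.1 hj
        have e1 := (Finset.mem_filter.1 hb).2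
        obtain ⟨⟨g', p⟩, i, hi⟩ := b
        have e2 : cls i = g' := congrArg Prod.fst hi
        have e3 : pal i = p := congrArg Prod.snd hi
        have e4 : g' = g := e1
        subst e4
        subst e2
        subst e3
        exact hpal i
      rw [h3, h4]
      have h6 := mul_le_mul_of_nonneg_right h5 (w_pos g.1).le
      linarith
    have h7 : ∑ g ∈ G, w g.1 * ∑' j : {j // cls j = g}, v j ≤ ∑' i, w (cls i).1 * v i := by
      have h8 : ∀ g ∈ G, Summable fun i => if cls i = g then w (cls i).1 * v i else 0 := by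
        intro g _
        refine Summable.of_nonneg_of_le (fun i => ?_) (fun i => ?_) hs
        · split_ifs
          · exact mul_nonneg (w_pos _).le (hv i)
          · exact le_rfl
        · split_ifs
          · exact le_rfl
          · exact mul_nonneg (w_pos _).le (hv i)
      rw [Finset.sum_congr rfl fun g _ => hV g, ← Summable.tsum_finsetSum h8]
      refine Summable.tsum_le_tsum (fun i => ?_) (summable_sum h8) hs
      rw [Finset.sum_ite_eq]
      split_ifs
      · exact le_rfl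
      · exact mul_nonneg (w_pos _).le (hv i)
    calc ∑ b ∈ u, w b.1.1.1 = ∑ g ∈ G, ∑ b ∈ u.filter (fun b => b.1.1 = g), w b.1.1.1 := h1
      _ ≤ ∑ g ∈ G, (w g.1 + R * (w g.1 * ∑' j : {j // cls j = g}, v j)) :=
          Finset.sum_le_sum h2
      _ = ∑ g ∈ G, w g.1 + R * ∑ g ∈ G, w g.1 * ∑' j : {j // cls j = g}, v j := by
          rw [Finset.sum_add_distrib, Finset.mul_sum]
      _ ≤ _ := add_le_add (sum_w G) (mul_le_mul_of_nonneg_left h7 hR)
  have hsum : Summable fun b : range fun i => (cls i, pal i) => w b.1.1.1 :=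
    summable_of_sum_le (fun b => (w_pos _).le) key
  exact ⟨hsum, hsum.tsum_le_of_sum_le key⟩

/-- greedy packing in all classes -/
lemma greedy {k m : ℕ} (hk : 0 < k) {M Q : ℝ} (hM : 1 < M) (hQ : 0 < Q) (h2 : S_Grd)
    {ι : Type} [Countable ι] (cls : ι → (Fin k → ℕ) × Fin m) (H : ι → Set (E k))
    (hH : ∀ i, IsBody (H i)) (hu : ∀ i, H i ⊆ ubox k)
    (hd : ∀ i j, cls i = cls j → volume.real (H i - H j) ≤ Q * volume.real (H i))
    (hs : Summable fun i => w (cls i).1 * volume.real (H i)) :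
    ∃ (pal : ι → ℕ) (pos : ι → E k), (∀ i l, 0 ≤ pos i l ∧ pos i l ≤ M - 1) ∧
      (∀ i j, i ≠ j → cls i = cls j → pal i = pal j →
        Disjoint ((fun x => pos i + x) '' H i) ((fun x => pos j + x) '' H j)) ∧
      ∀ i, (pal i : ℝ) * (M - 1) ^ k ≤ Q * ∑' j : {j // cls j = cls i}, volume.real (H j) := by
  have h3 : ∀ g : (Fin k → ℕ) × Fin m, ∃ (pal : {j // cls j = g} → ℕ)
      (pos : {j // cls j = g} → E k), (∀ i l, 0 ≤ pos i l ∧ pos i l ≤ M - 1) ∧
      (∀ i j, i ≠ j → pal i = pal j →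
        Disjoint ((fun x => pos i + x) '' H i) ((fun x => pos j + x) '' H j)) ∧
      ∀ i, (pal i : ℝ) * (M - 1) ^ k ≤ Q * ∑' j : {j // cls j = g}, volume.real (H j) := by
    intro g
    refine h2 k M Q hk hM hQ {j // cls j = g} (fun j => H j) (fun j => hH j) (fun j => hu j)
      (fun i j => hd i j (i.2.trans j.2.symm)) ?_
    have h4 : Summable fun j : {j // cls j = g} => w (cls j).1 * volume.real (H j) :=
      hs.subtype {j | cls j = g}
    have h5 : ∀ j : {j // cls j = g}, w (cls j).1 * volume.real (H j) =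
        w g.1 * volume.real (H j) := by
      rintro ⟨j, rfl⟩
      rfl
    rw [funext h5] at h4
    exact (summable_mul_left_iff (w_pos g.1).ne').1 h4
  choose pal pos h4 h5 h6 using h3
  refine ⟨fun i => pal (cls i) ⟨i, rfl⟩, fun i => pos (cls i) ⟨i, rfl⟩, fun i l => h4 _ _ l,
    ?_, fun i => h6 _ _⟩
  intro i j hij hc hp
  have e : ∀ g (h : cls j = g), pal (cls j) ⟨j, rfl⟩ = pal g ⟨j, h⟩ ∧
      pos (cls j) ⟨j, rfl⟩ = pos g ⟨j, h⟩ := by
    rintro g rfl
    exact ⟨rfl, rfl⟩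
  obtain ⟨e1, e2⟩ := e (cls i) hc.symm
  have hp' : pal (cls i) ⟨i, rfl⟩ = pal (cls j) ⟨j, rfl⟩ := hp
  rw [e1] at hp'
  have h7 := h5 (cls i) ⟨i, rfl⟩ ⟨j, hc.symm⟩ (fun h => hij (congrArg Subtype.val h)) hp'
  show Disjoint ((fun x => pos (cls i) ⟨i, rfl⟩ + x) '' H i)
    ((fun x => pos (cls j) ⟨j, rfl⟩ + x) '' H j)
  rw [e2]
  exact h7

end AuxPck

open AuxPck

theorem pr_Pck (h1 : S_Cls) (h2 : S_Grd) (h3 : S_Bx) : S_Pck := by
  intro k c θ hk hc hθ
  obtain ⟨M, δ, hM, hδ, hδ1, hpar⟩ := params k hk θ hθ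
  obtain ⟨m, lab, hlab⟩ := h1 k c δ hc hδ
  obtain ⟨s₀, hs₀, hbx⟩ := h3 k (1 / 2) δ hk (by norm_num) (by norm_num) hδ
  set Q : ℝ := (1 + δ) * 4 ^ k with hQd
  have hQ : 0 < Q := by positivity
  set U : ℝ := 2 * (M + 1) with hUd
  have hU : 0 < U := by
    rw [hUd]
    linarith
  have hM1 : 0 < (M - 1) ^ k := pow_pos (by linarith) k
  set D : ℝ := (1 - δ) * θ ^ k - Q * ((M + 1) / (M - 1)) ^ k with hDd
  have hD : 0 < D := by
    rw [hDd]
    linarith
  have hθ0 : 0 < θ := by linarith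
  refine ⟨max (max 1 ((s₀ * U / θ) ^ k)) (m * 2 ^ k * U ^ k / D),
    lt_of_lt_of_le one_pos ((le_max_left _ _).trans (le_max_left _ _)), ?_⟩
  intro t ht ι _ q H hH hu hcv hsum htot
  have ht1 : 1 ≤ t := ((le_max_left _ _).trans (le_max_left _ _)).trans ht
  have ht2 : (s₀ * U / θ) ^ k ≤ t := ((le_max_right _ _).trans (le_max_left _ _)).trans ht
  have ht3 : m * 2 ^ k * U ^ k / D ≤ t := (le_max_right _ _).trans ht
  have ht0 : 0 < t := by linarith
  set s : ℝ := θ * t ^ (1 / (k : ℝ)) / U with hsd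
  have hkr : (k : ℝ) ≠ 0 := by exact_mod_cast hk.ne'
  have htk : (t ^ (1 / (k : ℝ))) ^ k = t := by
    rw [← Real.rpow_natCast, ← Real.rpow_mul ht0.le, one_div, inv_mul_cancel₀ hkr, Real.rpow_one]
  have hroot : 0 < t ^ (1 / (k : ℝ)) := Real.rpow_pos_of_pos ht0 _
  have hs1 : s₀ ≤ s := by
    have h4 : s₀ * U / θ ≤ t ^ (1 / (k : ℝ)) := by
      by_contra h
      push Not at h
      have h5 := pow_lt_pow_left₀ h hroot.le hk.ne'
      rw [htk] at h5
      linarith
    rw [div_le_iff₀ hθ0] at h4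
    rw [hsd, le_div_iff₀ hU]
    linarith
  let cls : ι → (Fin k → ℕ) × Fin m := fun i => (q i, lab (H i))
  have hsw : ∀ i, (∏ l, 2 * (1 / 2 : ℝ) ^ q i l) * volume.real (H i) =
      2 ^ k * (w (cls i).1 * volume.real (H i)) := by
    intro i
    rw [w_two, mul_assoc]
  have hs2 : Summable fun i => w (cls i).1 * volume.real (H i) := by
    rw [funext hsw] at hsum
    exact (summable_mul_left_iff (by positivity)).1 hsum
  have htot2 : 2 ^ k * ∑' i, w (cls i).1 * volume.real (H i) ≤ t := by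
    rw [← tsum_mul_left, ← funext hsw]
    exact htot
  obtain ⟨pal, pos, hp1, hp2, hp3⟩ := greedy hk hM hQ h2 cls H hH hu (fun i j hij =>
    hlab (H i) (H j) (hH i) (hH j) (hu i) (hu j) (hcv i) (hcv j) (congrArg Prod.snd hij)) hs2
  obtain ⟨hT1, hT2⟩ := total cls pal (fun i => volume.real (H i)) (fun i => measureReal_nonneg)
    (Q / (M - 1) ^ k) (by positivity) hs2 (fun i => by
      have h4 := hp3 i
      rw [← le_div_iff₀ hM1] at h4
      rw [div_mul_eq_mul_div]
      exact h4)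
  let β := range fun i => (cls i, pal i)
  have hβ : Countable β := (countable_range _).to_subtype
  have hle : ∑' b : β, w b.1.1.1 ≤ (1 - δ) * s ^ k := by
    refine hT2.trans ?_
    have hsk : s ^ k = θ ^ k * t / U ^ k := by
      rw [hsd, div_pow, mul_pow, htk]
    have hUk : 0 < U ^ k := by positivity
    have h4 : m * 2 ^ k * U ^ k ≤ D * t := by
      rw [div_le_iff₀ hD] at ht3
      linarith
    have h5 : U ^ k = 2 ^ k * (M + 1) ^ k := by rw [hUd, mul_pow]
    have h6 : Q / (M - 1) ^ k * ∑' i, w (cls i).1 * volume.real (H i) ≤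
        Q * ((M + 1) / (M - 1)) ^ k * t / U ^ k := by
      rw [h5, div_pow]
      have h7 : 0 < (M + 1) ^ k := pow_pos (by linarith) k
      have h8 : (0 : ℝ) < 2 ^ k := by positivity
      have h9 : Q * ((M + 1) ^ k / (M - 1) ^ k) * t / (2 ^ k * (M + 1) ^ k) =
          Q / (M - 1) ^ k * (t / 2 ^ k) := by
        field_simp
      rw [h9]
      refine mul_le_mul_of_nonneg_left ?_ (by positivity)
      rw [le_div_iff₀ h8]
      linarith
    have h10 : (m : ℝ) * 2 ^ k ≤ D * t / U ^ k := by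
      rw [le_div_iff₀ hUk]
      exact h4
    calc (m : ℝ) * 2 ^ k + Q / (M - 1) ^ k * ∑' i, w (cls i).1 * volume.real (H i)
        ≤ D * t / U ^ k + Q * ((M + 1) / (M - 1)) ^ k * t / U ^ k := add_le_add h10 h6
      _ = (1 - δ) * s ^ k := by
          rw [hsk, hDd]
          ring
  obtain ⟨p, hpa, hpb⟩ := hbx s hs1 β (fun b => b.1.1.1) hT1 hle
  let b : ι → β := fun i => ⟨(cls i, pal i), mem_range_self i⟩
  let lam : ι → Fin k → ℝ := fun i l => 2 * (1 / 2 : ℝ) ^ q i l
  have hlam : ∀ i l, 0 < lam i l := fun i l => by positivity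
  have hUlam : ∀ i l, U * (1 / 2 : ℝ) ^ q i l = (M + 1) * lam i l := by
    intro i l
    show U * (1 / 2 : ℝ) ^ q i l = (M + 1) * (2 * (1 / 2 : ℝ) ^ q i l)
    rw [hUd]
    ring
  let τ : ι → E k := fun i => WithLp.toLp 2 fun l =>
    U * p (b i) l + lam i l * (pos i l + 1 / 2)
  have hval : ∀ i l (x : ℝ), τ i l + 2 * (1 / 2 : ℝ) ^ q i l * x =
      U * p (b i) l + lam i l * (pos i l + x + 1 / 2) := by
    intro i l x
    show U * p (b i) l + lam i l * (pos i l + 1 / 2) + lam i l * x = _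
    ring
  have hbd : ∀ i l (x : ℝ), 0 ≤ x → x ≤ 1 → U * p (b i) l < τ i l + 2 * (1 / 2 : ℝ) ^ q i l * x ∧
      τ i l + 2 * (1 / 2 : ℝ) ^ q i l * x < U * (p (b i) l + (1 / 2 : ℝ) ^ q i l) := by
    intro i l x hx0 hx1
    rw [hval, mul_add U, hUlam]
    have h4 := hp1 i l
    have h5 := hlam i l
    constructor
    · have : 0 < lam i l * (pos i l + x + 1 / 2) := mul_pos h5 (by linarith)
      linarith
    · have : lam i l * (pos i l + x + 1 / 2) < lam i l * (M + 1) :=
        mul_lt_mul_of_pos_left (by linarith) h5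
      linarith
  have hcoord : ∀ i l (x : E k), (τ i + dil (fun l => 2 * (1 / 2 : ℝ) ^ q i l) x) l =
      τ i l + 2 * (1 / 2 : ℝ) ^ q i l * x l := fun i l x => rfl
  refine ⟨τ, ?_, ?_⟩
  · intro i x hx l
    obtain ⟨hx0, hx1⟩ := hu i hx l
    obtain ⟨h4, h5⟩ := hbd i l (x l) hx0 hx1
    obtain ⟨h6, h7⟩ := hpa (b i) l
    constructor
    · have := mul_nonneg hU.le h6
      linarith
    · have h8 : U * (p (b i) l + (1 / 2 : ℝ) ^ q i l) ≤ U * s := mul_le_mul_of_nonneg_left h7 hU.le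
      have h9 : U * s = θ * t ^ (1 / (k : ℝ)) := by
        rw [hsd]
        field_simp
      linarith
  · intro i j hij
    rw [Set.disjoint_left]
    rintro z ⟨x, hx, rfl⟩ ⟨y, hy, hxy⟩
    have hc' : ∀ l, τ j l + 2 * (1 / 2 : ℝ) ^ q j l * y l =
        τ i l + 2 * (1 / 2 : ℝ) ^ q i l * x l := by
      intro l
      have := congrArg (fun z : E k => z l) hxy
      exact this
    by_cases hb : b i = b j
    · have hb1 : (cls i, pal i) = (cls j, pal j) := congrArg Subtype.val hb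
      have hcl : cls i = cls j := congrArg Prod.fst hb1
      have hpl : pal i = pal j := congrArg Prod.snd hb1
      have hq : q i = q j := congrArg Prod.fst hcl
      have hdis := hp2 i j hij hcl hpl
      rw [Set.disjoint_left] at hdis
      refine hdis ⟨x, hx, rfl⟩ ⟨y, hy, ?_⟩
      ext l
      have h4 := hc' l
      rw [hval, hval, hb] at h4
      have h5 : lam j l = lam i l := by
        show 2 * (1 / 2 : ℝ) ^ q j l = 2 * (1 / 2 : ℝ) ^ q i l
        rw [hq]
      rw [h5] at h4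
      have h6 : lam i l * (pos j l + y l + 1 / 2) = lam i l * (pos i l + x l + 1 / 2) := by
        linarith
      have h7 := mul_left_cancel₀ (hlam i l).ne' h6
      show pos j l + y l = pos i l + x l
      linarith
    · obtain ⟨l, hl⟩ := hpb (b i) (b j) hb
      obtain ⟨hx0, hx1⟩ := hu i hx l
      obtain ⟨hy0, hy1⟩ := hu j hy l
      obtain ⟨h4, h5⟩ := hbd i l (x l) hx0 hx1
      obtain ⟨h6, h7⟩ := hbd j l (y l) hy0 hy1
      have h8 := hc' l
      rcases hl with hl | hl
      · have h9 := mul_le_mul_of_nonneg_left hl hU.le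
        have h10 : U * (p (b i) l + (1 / 2 : ℝ) ^ q i l) ≤ U * p (b j) l := h9
        linarith
      · have h9 := mul_le_mul_of_nonneg_left hl hU.le
        have h10 : U * (p (b j) l + (1 / 2 : ℝ) ^ q j l) ≤ U * p (b i) l := h9
        linarith

end Pool.Agent.Potatoes.LV
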