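import Pool.Agent.Work.MP_72041b_co.LV.Stmts

set_option autoImplicit false

namespace Pool.Agent.Potatoes.LV

open MeasureTheory Set Metric
open scoped RealInnerProductSpace Pointwise

namespace AuxRz

lemma tonelli {k : ℕ} {A : Set (E k)} (hA : MeasurableSet A) :
    ∫⁻ x : E k, volume (A ∩ {y | y - x ∈ A}) = volume A * volume A := by
  have h1 : ∀ x : E k, volume (A ∩ {y | y - x ∈ A}) =
      ∫⁻ y : E k, A.indicator (fun _ => (1 : ENNReal)) y * A.indicator (fun _ => 1) (y - x) := by
    intro x
    have hm : MeasurableSet (A ∩ {y | y - x ∈ A}) :=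
      hA.inter (hA.preimage (measurable_id.sub_const x))
    rw [← lintegral_indicator_one hm]
    apply lintegral_congr
    intro y
    by_cases h1 : y ∈ A <;> by_cases h2 : y - x ∈ A <;> simp [h1, h2]
  simp_rw [h1]
  rw [lintegral_lintegral_swap]
  · have h2 : ∀ y : E k, ∫⁻ x : E k, A.indicator (fun _ => (1 : ENNReal)) y *
        A.indicator (fun _ => 1) (y - x) =
        A.indicator (fun _ => (1 : ENNReal)) y * volume A := by
      intro y
      rw [lintegral_const_mul]
      · congr 1
        rw [lintegral_sub_left_eq_self (fun x => A.indicator (fun _ => (1 : ENNReal)) x) y]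
        rw [lintegral_indicator_const hA, one_mul]
      · exact (measurable_const.indicator hA).comp (measurable_const.sub measurable_id)
    simp_rw [h2]
    rw [lintegral_mul_const _ (measurable_const.indicator hA), lintegral_indicator_const hA,
      one_mul]
  · apply Measurable.aemeasurable
    apply Measurable.mul
    · exact (measurable_const.indicator hA).comp measurable_snd
    · exact (measurable_const.indicator hA).comp (measurable_snd.sub measurable_fst)

end AuxRz

theorem pr_Rz : S_Rz := by
  intro k K hK
  have hKc := hK.compact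
  have hKK : (K + K : Set (E k)) = (2 : ℝ) • K := by
    have := hK.convex.add_smul (p := (1 : ℝ)) (q := 1) zero_le_one zero_le_one
    rw [one_smul] at this
    rw [← this]
    norm_num
  have hA : MeasurableSet ((2 : ℝ) • K : Set (E k)) := by
    rw [← hKK]
    exact (hKc.add hKc).measurableSet
  have hD : MeasurableSet (K - K : Set (E k)) := by
    rw [sub_eq_add_neg]
    exact (hKc.add hKc.neg).measurableSet
  have hsub : ∀ x ∈ (K - K : Set (E k)), volume K ≤
      volume (((2 : ℝ) • K : Set (E k)) ∩ {y | y - x ∈ ((2 : ℝ) • K : Set (E k))}) := by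
    intro x hx
    obtain ⟨a, ha, c, hc, rfl⟩ := Set.mem_sub.1 hx
    have h1 : (fun z => a + z) '' K ⊆
        (((2 : ℝ) • K : Set (E k)) ∩ {y | y - (a - c) ∈ ((2 : ℝ) • K : Set (E k))}) := by
      rintro _ ⟨z, hz, rfl⟩
      rw [← hKK]
      refine ⟨Set.add_mem_add ha hz, ?_⟩
      show a + z - (a - c) ∈ K + K
      have : a + z - (a - c) = c + z := by abel
      rw [this]
      exact Set.add_mem_add hc hz
    calc volume K = volume ((fun z => a + z) '' K) := by
          rw [Set.image_add_left, measure_preimage_add]
      _ ≤ _ := measure_mono h1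
  have h2 : volume (K - K : Set (E k)) * volume K ≤
      volume ((2 : ℝ) • K : Set (E k)) * volume ((2 : ℝ) • K : Set (E k)) := by
    rw [← AuxRz.tonelli hA]
    calc volume (K - K : Set (E k)) * volume K = ∫⁻ x in (K - K : Set (E k)), volume K := by
          rw [setLIntegral_const, mul_comm]
      _ ≤ ∫⁻ x in (K - K : Set (E k)), volume (((2 : ℝ) • K : Set (E k)) ∩
            {y | y - x ∈ ((2 : ℝ) • K : Set (E k))}) :=
          setLIntegral_mono' hD hsub
      _ ≤ _ := setLIntegral_le_lintegral _ _
  have h3 : volume ((2 : ℝ) • K : Set (E k)) = ENNReal.ofReal (2 ^ k) * volume K := by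
    rw [Measure.addHaar_smul]
    simp
  have hfin : volume K ≠ ⊤ := hKc.measure_lt_top.ne
  have hpos : 0 < volume.real K := by
    rw [Measure.real, ENNReal.toReal_pos_iff]
    exact ⟨lt_of_lt_of_le (isOpen_interior.measure_pos volume hK.inner)
      (measure_mono interior_subset), hKc.measure_lt_top⟩
  have h4 : volume.real (K - K : Set (E k)) * volume.real K ≤
      (2 ^ k * volume.real K) * (2 ^ k * volume.real K) := by
    have h5 := ENNReal.toReal_mono (by
      rw [h3]
      exact ENNReal.mul_ne_top (ENNReal.mul_ne_top ENNReal.ofReal_ne_top hfin)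
        (ENNReal.mul_ne_top ENNReal.ofReal_ne_top hfin)) h2
    rw [h3] at h5
    simp only [ENNReal.toReal_mul] at h5
    rw [ENNReal.toReal_ofReal (by positivity)] at h5
    exact h5
  have h6 : volume.real (K - K : Set (E k)) * volume.real K ≤
      (4 ^ k * volume.real K) * volume.real K := by
    calc _ ≤ _ := h4
      _ = _ := by
        have : (4 : ℝ) ^ k = 2 ^ k * 2 ^ k := by
          rw [← mul_pow]
          norm_num
        rw [this]
        ring
  exact le_of_mul_le_mul_right h6 hpos

end Pool.Agent.Potatoes.LV
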