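import Pool.Agent.Work.MP_72041b_co.LV.Stmts

set_option autoImplicit false

/-!
# Symmetric convex sets of large volume contain a ball
-/

namespace Pool.Agent.Potatoes.LV

open MeasureTheory Set Metric
open scoped RealInnerProductSpace Pointwise

namespace AuxSym

/-- the volume of a box in coordinates with one short edge -/
theorem vol_box {ι : Type*} [Fintype ι] [DecidableEq ι] (i0 : ι) (r R : ℝ) :
    volume {y : EuclideanSpace ℝ ι | |y i0| ≤ r ∧ ∀ j, |y j| ≤ R} ≤
      ENNReal.ofReal (2 * r) * ENNReal.ofReal (2 * R) ^ (Fintype.card ι - 1) := by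
  set B : Set (ι → ℝ) := Icc (fun j => -(if j = i0 then r else R))
    (fun j => (if j = i0 then r else R)) with hB
  have h2 : {y : EuclideanSpace ℝ ι | |y i0| ≤ r ∧ ∀ j, |y j| ≤ R} ⊆
      (MeasurableEquiv.toLp 2 (ι → ℝ)).symm ⁻¹' B := by
    rintro y ⟨hy0, hy⟩
    simp only [hB, mem_preimage, mem_Icc, Pi.le_def]
    rw [← forall_and]
    intro j
    by_cases hj : j = i0
    · subst hj
      simp only [if_true]
      exact abs_le.mp hy0
    · simp only [if_neg hj]
      exact abs_le.mp (hy j)
  refine (measure_mono h2).trans ?_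
  rw [(EuclideanSpace.volume_preserving_symm_measurableEquiv_toLp ι).measure_preimage_equiv]
  rw [hB, Real.volume_Icc_pi]
  have h3 : ∀ j, ENNReal.ofReal ((if j = i0 then r else R) - -(if j = i0 then r else R)) =
      if j = i0 then ENNReal.ofReal (2 * r) else ENNReal.ofReal (2 * R) := by
    intro j
    split_ifs <;> congr 1 <;> ring
  rw [Finset.prod_congr rfl (fun j _ => h3 j), Finset.prod_ite]
  have h4 : (Finset.univ.filter (fun j => j = i0)).card = 1 := by
    rw [Finset.filter_eq' Finset.univ i0]
    simp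
  have h5 : (Finset.univ.filter (fun j => ¬ j = i0)).card = Fintype.card ι - 1 := by
    have := Finset.card_filter_add_card_filter_not (s := (Finset.univ : Finset ι)) (fun j => j = i0)
    rw [h4, Finset.card_univ] at this
    omega
  rw [Finset.prod_const, Finset.prod_const, h4, h5, pow_one]

/-- the volume of a slab of a ball -/
theorem vol_slab {k : ℕ} (e : E k) (he : ‖e‖ = 1) (r R : ℝ) :
    volume {x : E k | |⟪e, x⟫| ≤ r ∧ ‖x‖ ≤ R} ≤
      ENNReal.ofReal (2 * r) * ENNReal.ofReal (2 * R) ^ (k - 1) := by
  classical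
  have ho : Orthonormal ℝ ((↑) : ({e} : Set (E k)) → E k) := by
    rw [orthonormal_subtype_iff_ite]
    intro v hv w hw
    rw [mem_singleton_iff] at hv hw
    subst hv; subst hw
    simp [he]
  obtain ⟨u, b, hu, hb⟩ := ho.exists_orthonormalBasis_extension
  have heu : e ∈ u := by
    have := hu (mem_singleton e)
    exact_mod_cast this
  have hcard : Fintype.card u = k := by
    have h1 := Module.finrank_eq_card_basis b.toBasis
    rw [← h1]
    simp
  have hsub : {x : E k | |⟪e, x⟫| ≤ r ∧ ‖x‖ ≤ R} ⊆ b.repr ⁻¹'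
      {y : EuclideanSpace ℝ u | |y ⟨e, heu⟩| ≤ r ∧ ∀ j, |y j| ≤ R} := by
    rintro x ⟨hx1, hx2⟩
    simp only [mem_preimage, Set.mem_ofPred_eq]
    constructor
    · rw [b.repr_apply_apply, hb]
      exact hx1
    · intro j
      rw [b.repr_apply_apply]
      refine (abs_real_inner_le_norm _ _).trans ?_
      rw [b.norm_eq_one, one_mul]
      exact hx2
  refine (measure_mono hsub).trans ?_
  have hm := b.measurePreserving_repr
  have h1 : volume (b.repr ⁻¹'
      {y : EuclideanSpace ℝ u | |y ⟨e, heu⟩| ≤ r ∧ ∀ j, |y j| ≤ R}) =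
      volume {y : EuclideanSpace ℝ u | |y ⟨e, heu⟩| ≤ r ∧ ∀ j, |y j| ≤ R} := by
    apply hm.measure_preimage
    apply MeasurableSet.nullMeasurableSet
    apply IsClosed.measurableSet
    have h2 : {y : EuclideanSpace ℝ u | |y ⟨e, heu⟩| ≤ r ∧ ∀ j, |y j| ≤ R} =
        {y | |y ⟨e, heu⟩| ≤ r} ∩ ⋂ j, {y : EuclideanSpace ℝ u | |y j| ≤ R} := by
      ext y
      simp
    rw [h2]
    refine IsClosed.inter (isClosed_le (by fun_prop) continuous_const)
      (isClosed_iInter fun j => isClosed_le (by fun_prop) continuous_const)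
  rw [h1]
  have h3 := vol_box (⟨e, heu⟩ : u) r R
  rw [hcard] at h3
  exact h3

end AuxSym

theorem pr_Sym : S_Sym := by
  intro k c hc
  rcases Nat.eq_zero_or_pos k with hk | hk
  · subst hk
    refine ⟨1, one_pos, ?_⟩
    intro D _ _ _ _ hvol x _
    have hne : D.Nonempty := by
      by_contra hD
      rw [not_nonempty_iff_eq_empty] at hD
      rw [hD, measureReal_empty] at hvol
      linarith
    obtain ⟨y, hy⟩ := hne
    have : x = y := Subsingleton.elim _ _
    rw [this]
    exact hy
  · have hk' : (0 : ℝ) < √k := Real.sqrt_pos.mpr (by exact_mod_cast hk)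
    set M : ℝ := (2 * √k) ^ (k - 1) with hM
    have hMp : 0 < M := by positivity
    refine ⟨c / (4 * M), by positivity, ?_⟩
    intro D hD hconv hsym hbox hvol z hz
    by_contra hzD
    have hne : D.Nonempty := by
      by_contra hD
      rw [not_nonempty_iff_eq_empty] at hD
      rw [hD, measureReal_empty] at hvol
      linarith
    obtain ⟨f, u, hfu, huz⟩ := geometric_hahn_banach_closed_point hconv hD.isClosed hzD
    set v : E k := (InnerProductSpace.toDual ℝ (E k)).symm f with hv
    have hfv : ∀ x, f x = ⟪v, x⟫ := fun x => by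
      rw [hv, InnerProductSpace.toDual_symm_apply]
    have hu0 : 0 < u := by
      obtain ⟨y, hy⟩ := hne
      have h1 := hfu y hy
      have h2 := hfu (-y) (hsym y hy)
      rw [map_neg] at h2
      linarith
    have hv0 : v ≠ 0 := by
      intro h0
      rw [hfv z, h0, inner_zero_left] at huz
      linarith
    have hvn : 0 < ‖v‖ := norm_pos_iff.mpr hv0
    have hzn : ‖z‖ ≤ c / (4 * M) := by simpa using hz
    have huv : u ≤ ‖v‖ * (c / (4 * M)) := by
      refine huz.le.trans ?_
      rw [hfv z]
      exact (real_inner_le_norm _ _).trans (mul_le_mul_of_nonneg_left hzn hvn.le)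
    set e : E k := ‖v‖⁻¹ • v with he
    have hen : ‖e‖ = 1 := by
      rw [he, norm_smul, norm_inv, norm_norm, inv_mul_cancel₀ hvn.ne']
    have hsub : D ⊆ {x : E k | |⟪e, x⟫| ≤ c / (4 * M) ∧ ‖x‖ ≤ √k} := by
      intro x hx
      constructor
      · have h1 := hfu x hx
        have h2 := hfu (-x) (hsym x hx)
        rw [map_neg] at h2
        have h3 : |⟪v, x⟫| ≤ u := by
          rw [← hfv x]
          exact abs_le.mpr ⟨by linarith, by linarith⟩
        rw [he, real_inner_smul_left, abs_mul, abs_inv, abs_norm]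
        rw [inv_mul_le_iff₀ hvn]
        linarith
      · rw [EuclideanSpace.norm_eq]
        apply Real.sqrt_le_sqrt
        calc ∑ i, ‖x i‖ ^ 2 ≤ ∑ _i : Fin k, (1 : ℝ) := by
              apply Finset.sum_le_sum
              intro i _
              rw [Real.norm_eq_abs]
              have := hbox x hx i
              nlinarith [abs_nonneg (x i)]
          _ = k := by simp
    have h1 := (measure_mono hsub).trans (AuxSym.vol_slab e hen (c / (4 * M)) (√k))
    have h2 : volume D ≤ ENNReal.ofReal (c / 2) := by
      refine h1.trans (le_of_eq ?_)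
      rw [← ENNReal.ofReal_pow (by positivity), ← ENNReal.ofReal_mul (by positivity), ← hM]
      congr 1
      field_simp
      ring
    have h3 : volume.real D ≤ c / 2 := by
      rw [Measure.real]
      exact ENNReal.toReal_le_of_le_ofReal (by positivity) h2
    linarith

end Pool.Agent.Potatoes.LV
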