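import Pool.Agent.Work.MP_72041b_co.LV.Stmts

set_option autoImplicit false

/-!
# The upper bound in the plane for large total volume
-/

namespace Pool.Agent.Potatoes.LV

open MeasureTheory Set Metric
open scoped RealInnerProductSpace Pointwise

namespace AuxUp2

/-- the parameters -/
theorem params (θ : ℝ) (hθ : 2 < θ) : ∃ ρ ε : ℝ, 0 < ρ ∧ ρ < 1 ∧ 0 < ε ∧ ε < 1 ∧
    (1 - ε) * (θ ^ 2 * ρ ^ 4) = 4 := by
  have h0 : 0 < 2 / θ := by positivity
  have h1 : 2 / θ < 1 := (div_lt_one (by linarith)).2 hθ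
  have h2 : (√(√(2 / θ))) ^ 2 = √(2 / θ) := Real.sq_sqrt (Real.sqrt_nonneg _)
  have h3 : (√(2 / θ)) ^ 2 = 2 / θ := Real.sq_sqrt h0.le
  have hs0 : 0 < √(2 / θ) := Real.sqrt_pos.2 h0
  have hs1 : √(2 / θ) < 1 := by
    rw [Real.sqrt_lt' one_pos]
    linarith
  refine ⟨√(√(2 / θ)), 1 - 2 / θ, Real.sqrt_pos.2 hs0, ?_, by linarith, by linarith, ?_⟩
  · rw [Real.sqrt_lt' one_pos]
    linarith
  · have e : (√(√(2 / θ))) ^ 4 = 2 / θ := by
      calc (√(√(2 / θ))) ^ 4 = ((√(√(2 / θ))) ^ 2) ^ 2 := by ring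
        _ = 2 / θ := by rw [h2, h3]
    rw [e]
    have hθ0 : θ ≠ 0 := by positivity
    field_simp
    ring

/-- the body with coordinates in an open box -/
theorem coord {ρ w q P z s : ℝ} (hρ : 0 < ρ) (hρ1 : ρ < 1) (hw : 0 < w) (hq : w ≤ q)
    (hP : 0 ≤ P) (hPs : P + q ≤ s * ρ) (hz0 : 0 ≤ z) (hzw : z ≤ w) :
    |z + (P / ρ + (q / ρ - w) / 2 - s / 2)| ≤ s / 2 ∧
      P / ρ - s / 2 < z + (P / ρ + (q / ρ - w) / 2 - s / 2) ∧
      z + (P / ρ + (q / ρ - w) / 2 - s / 2) < (P + q) / ρ - s / 2 := by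
  have h1 : w < q / ρ := by
    rw [lt_div_iff₀ hρ]
    nlinarith
  have h2 : (P + q) / ρ ≤ s := by
    rw [div_le_iff₀ hρ]
    exact hPs
  have h3 : 0 ≤ P / ρ := div_nonneg hP hρ.le
  have h4 : (P + q) / ρ = P / ρ + q / ρ := add_div _ _ _
  refine ⟨?_, by linarith, by linarith⟩
  rw [abs_le]
  constructor <;> linarith

end AuxUp2

open AuxUp2 in
theorem pr_Up2 (h : S_Bx) : S_Up2 := by
  intro θ hθ
  obtain ⟨ρ, ε, hρ, hρ1, hε, hε1, hpar⟩ := params θ hθ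
  obtain ⟨s₀, hs₀, hbx⟩ := h 2 ρ ε (by norm_num) hρ hρ1 hε
  have hθ0 : 0 < θ := by linarith
  have h2 : (0 : ℝ) < √2 := by positivity
  have hsq2 : (√2 : ℝ) ^ 2 = 2 := Real.sq_sqrt (by norm_num)
  refine ⟨(s₀ * √2 / (θ * ρ)) ^ 2, by positivity, fun t ht => ?_⟩
  have ht0 : 0 < t := lt_of_lt_of_le (by positivity) ht
  have hc : 0 < θ * t ^ (1 / 2 : ℝ) := by positivity
  rw [(claimStd 2 1 t (θ * t ^ (1 / 2 : ℝ)) (by norm_num) hc).1]
  intro ι _ K hK hd hvol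
  set s : ℝ := θ * t ^ (1 / 2 : ℝ) / √((2 : ℕ) : ℝ) with hs
  have hs' : s = θ * √t / √2 := by
    rw [hs, Real.sqrt_eq_rpow t]
    norm_num
  have hst : √t ^ 2 = t := Real.sq_sqrt ht0.le
  have hs2 : s ^ 2 = θ ^ 2 * t / 2 := by
    rw [hs', div_pow, mul_pow, hst, hsq2]
  have hsρ : s₀ ≤ s * ρ := by
    have h3 : s₀ * √2 / (θ * ρ) ≤ √t := by
      apply Real.le_sqrt_of_sq_le ht
    rw [div_le_iff₀ (by positivity)] at h3
    rw [hs', div_mul_eq_mul_div, le_div_iff₀ h2]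
    linarith
  choose u p w hw0 hw1 hw10 hbox harea using fun i => claimBox2 (K i) (hK i)
  have hvol_ne : ∑' i, volume (K i) ≠ ⊤ := ne_top_of_le_ne_top ENNReal.ofReal_ne_top hvol
  have hsumvol : Summable fun i => volume.real (K i) := ENNReal.summable_toReal hvol_ne
  have htsvol : ∑' i, volume.real (K i) ≤ t := by
    have h3 : ∑' i, volume.real (K i) = (∑' i, volume (K i)).toReal := by
      rw [ENNReal.tsum_toReal_eq (fun i => ENNReal.ne_top_of_tsum_ne_top hvol_ne i)]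
      rfl
    rw [h3]
    exact ENNReal.toReal_le_of_le_ofReal ht0.le hvol
  have hpos : ∀ i l, 0 < w i l := by
    intro i l
    fin_cases l
    · exact lt_of_lt_of_le (hw1 i) (hw10 i)
    · exact hw1 i
  have hle1 : ∀ i l, w i l ≤ 1 := by
    intro i l
    have h0 : w i 0 ≤ 1 := by rw [hw0 i]; exact hd i
    fin_cases l
    · exact h0
    · exact (hw10 i).trans h0
  choose q hq1 hq2 using fun (i : ι) (l : Fin 2) =>
    exists_nat_pow_near_of_lt_one (hpos i l) (hle1 i l) hρ hρ1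
  have hprod : ∀ i, ∏ l, ρ ^ q i l ≤ 2 * (ρ ^ 2)⁻¹ * volume.real (K i) := by
    intro i
    have e : ∏ l, ρ ^ q i l = (ρ ^ 2)⁻¹ * (ρ ^ (q i 0 + 1) * ρ ^ (q i 1 + 1)) := by
      rw [Fin.prod_univ_two]
      field_simp
      ring
    have h3 : ρ ^ (q i 0 + 1) * ρ ^ (q i 1 + 1) ≤ w i 0 * w i 1 :=
      mul_le_mul (hq1 i 0).le (hq1 i 1).le (by positivity) (hpos i 0).le
    have h4 := mul_le_mul_of_nonneg_left (h3.trans (harea i))
      (show (0 : ℝ) ≤ (ρ ^ 2)⁻¹ by positivity)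
    rw [e]
    linarith
  have hsum : Summable fun i => ∏ l, ρ ^ q i l :=
    Summable.of_nonneg_of_le (fun i => Finset.prod_nonneg fun l _ => by positivity) hprod
      (hsumvol.mul_left _)
  have hts : ∑' i, ∏ l, ρ ^ q i l ≤ (1 - ε) * (s * ρ) ^ 2 := by
    calc ∑' i, ∏ l, ρ ^ q i l ≤ ∑' i, 2 * (ρ ^ 2)⁻¹ * volume.real (K i) :=
          hsum.tsum_le_tsum hprod (hsumvol.mul_left _)
      _ = 2 * (ρ ^ 2)⁻¹ * ∑' i, volume.real (K i) := tsum_mul_left
      _ ≤ 2 * (ρ ^ 2)⁻¹ * t := mul_le_mul_of_nonneg_left htsvol (by positivity)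
      _ = (1 - ε) * (s * ρ) ^ 2 := by
        have e : (1 - ε) * (s * ρ) ^ 2 = (1 - ε) * (θ ^ 2 * ρ ^ 4) * (ρ ^ 2)⁻¹ * t / 2 := by
          rw [mul_pow, hs2]
          field_simp
        rw [e, hpar]
        ring
  obtain ⟨P, hP, hdis⟩ := hbx (s * ρ) hsρ ι q hsum hts
  let v := EuclideanSpace.basisFun (Fin 2) ℝ
  have hv : ∀ l (x : E 2), ⟪v l, x⟫ = x l := by
    intro l x
    simp only [v, EuclideanSpace.basisFun_apply]
    rw [EuclideanSpace.inner_single_left]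
    simp
  choose g hg using fun i => Up2.exists_iso (u i) v
    (fun l => - p i l + (P i l / ρ + (ρ ^ q i l / ρ - w i l) / 2 - s / 2))
  have hcoord : ∀ i, ∀ x ∈ K i, ∀ l, |(g i x) l| ≤ s / 2 ∧ P i l / ρ - s / 2 < (g i x) l ∧
      (g i x) l < (P i l + ρ ^ q i l) / ρ - s / 2 := by
    intro i x hx l
    have e1 := hbox i x hx l
    have e : (g i x) l = (⟪u i l, x⟫ - p i l) +
        (P i l / ρ + (ρ ^ q i l / ρ - w i l) / 2 - s / 2) := by
      rw [← hv l (g i x), hg]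
      ring
    rw [e]
    exact coord hρ hρ1 (hpos i l) (hq2 i l) (hP i l).1 (hP i l).2 (by linarith [e1.1])
      (by linarith [e1.2])
  refine ⟨g, ?_, ?_⟩
  · rintro i _ ⟨x, hx, rfl⟩ l
    exact (hcoord i x hx l).1
  · intro i j hij
    rw [Set.disjoint_left]
    rintro _ ⟨x, hx, rfl⟩ ⟨x', hx', hxx⟩
    obtain ⟨l, hl⟩ := hdis i j hij
    have m := hcoord i x hx l
    have n := hcoord j x' hx' l
    rw [hxx] at n
    rcases hl with hl | hl
    · have h3 := div_le_div_of_nonneg_right hl hρ.le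
      linarith [m.2.2, n.2.1]
    · have h3 := div_le_div_of_nonneg_right hl hρ.le
      linarith [n.2.2, m.2.1]

end Pool.Agent.Potatoes.LV
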