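import Pool.Agent.Work.MP_72041b_co.LV.Stmts

set_option autoImplicit false

/-!
# MP_72041b_co, block LV, item Up4: the upper bound in all dimensions
-/

namespace Pool.Agent.Potatoes.LV

open MeasureTheory Set Metric
open scoped RealInnerProductSpace Pointwise

namespace AuxUp4

/-- the sum of the real volumes -/
lemma sum_real {k : ℕ} {ι : Type} (K : ι → Set (E k)) (t : ℝ)
    (h : ∑' i, volume (K i) ≤ ENNReal.ofReal t) (ht : 0 ≤ t) :
    (Summable fun i => volume.real (K i)) ∧ ∑' i, volume.real (K i) ≤ t := by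
  have hne : ∑' i, volume (K i) ≠ ⊤ := ne_top_of_le_ne_top ENNReal.ofReal_ne_top h
  refine ⟨ENNReal.summable_toReal hne, ?_⟩
  have h1 : ∑' i, volume.real (K i) = (∑' i, volume (K i)).toReal :=
    (ENNReal.tsum_toReal_eq fun i => ENNReal.ne_top_of_tsum_ne_top hne i).symm
  rw [h1]
  exact ENNReal.toReal_le_of_le_ofReal ht h

end AuxUp4

open AuxUp4 in
theorem pr_Up4 (h1 : S_Nrm) (h2 : S_Pck) : S_Up4 := by
  intro k θ hk hθ
  have hk0 : 0 < k := by omega
  obtain ⟨c, hc, hN⟩ := h1 k hk0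
  obtain ⟨t₀, ht₀, hP⟩ := h2 k c θ hk0 hc hθ
  refine ⟨t₀, ht₀, ?_⟩
  intro t ht
  have ht0 : 0 < t := ht₀.trans_le ht
  set s : ℝ := θ * t ^ (1 / (k : ℝ)) with hs
  have hs0 : 0 < s := mul_pos (by linarith) (Real.rpow_pos_of_pos ht0 _)
  have hk1 : (0 : ℝ) < √k := Real.sqrt_pos.2 (by exact_mod_cast hk0)
  refine ((claimStd k 1 t (√k * s) hk0 (mul_pos hk1 hs0)).1).2 ?_
  intro ι _ K hK hd hv
  rw [mul_div_cancel_left₀ s hk1.ne']
  choose q H g hH1 hH2 hH3 hH4 hH5 using fun i => hN (K i) (hK i) (hd i)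
  obtain ⟨hsum, hle⟩ := sum_real K t hv ht0.le
  have e1 : (fun i => volume.real (K i)) =
      fun i => (∏ l, 2 * (1 / 2 : ℝ) ^ q i l) * volume.real (H i) := funext hH4
  rw [e1] at hsum
  have hle' : ∑' i, (∏ l, 2 * (1 / 2 : ℝ) ^ q i l) * volume.real (H i) ≤ t := by
    rw [← e1]
    exact hle
  obtain ⟨τ, hτ1, hτ2⟩ := hP t ht ι q H hH1 hH2 hH3 hsum hle'
  let half : E k := WithLp.toLp 2 fun _ => s / 2
  refine ⟨fun i => (g i).trans (IsometryEquiv.addRight (τ i - half)), ?_, ?_⟩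
  · rintro i _ ⟨x, hx, rfl⟩
    have hx' : g i x ∈ dil (fun l => 2 * (1 / 2 : ℝ) ^ q i l) '' H i := by
      rw [← hH5 i]
      exact mem_image_of_mem _ hx
    obtain ⟨y, hy, hyx⟩ := hx'
    intro l
    have e2 : ((g i).trans (IsometryEquiv.addRight (τ i - half))) x l =
        2 * (1 / 2 : ℝ) ^ q i l * y l + (τ i l - s / 2) := by
      change (g i x + (τ i - half)) l = _
      rw [← hyx]
      rfl
    rw [e2, abs_le]
    have := hτ1 i y hy l
    constructor <;> linarith [this.1, this.2]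
  · intro i j hij
    rw [Set.disjoint_left]
    rintro z ⟨x, hx, hxz⟩ ⟨x', hx', hxz'⟩
    have hx1 : g i x ∈ dil (fun l => 2 * (1 / 2 : ℝ) ^ q i l) '' H i := by
      rw [← hH5 i]
      exact mem_image_of_mem _ hx
    have hx2 : g j x' ∈ dil (fun l => 2 * (1 / 2 : ℝ) ^ q j l) '' H j := by
      rw [← hH5 j]
      exact mem_image_of_mem _ hx'
    obtain ⟨y, hy, hyx⟩ := hx1
    obtain ⟨y', hy', hyx'⟩ := hx2
    refine (Set.disjoint_left.1 (hτ2 i j hij) : ∀ ⦃a : E k⦄, _) (a := z + half) ⟨y, hy, ?_⟩ ⟨y', hy', ?_⟩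
    · change τ i + dil (fun l => 2 * (1 / 2 : ℝ) ^ q i l) y = z + half
      rw [hyx, ← hxz]
      change τ i + g i x = (g i x + (τ i - half)) + half
      abel
    · change τ j + dil (fun l => 2 * (1 / 2 : ℝ) ^ q j l) y' = z + half
      rw [hyx', ← hxz']
      change τ j + g j x' = (g j x' + (τ j - half)) + half
      abel

end Pool.Agent.Potatoes.LV
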