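import Pool.Agent.Work.MP_72041b_co.LV.Stmts

set_option autoImplicit false

namespace Pool.Agent.Potatoes.LV

open MeasureTheory Set Metric
open scoped RealInnerProductSpace Pointwise

theorem pr_Vol1 : S_Vol1 := by
  intro k K hK hd
  have hne : K.Nonempty := hK.inner.mono interior_subset
  have hbd : Bornology.IsBounded K := hK.compact.isBounded
  set m : Fin k → ℝ := fun l => sInf ((fun x : E k => x l) '' K) with hm
  have hdist : ∀ x ∈ K, ∀ y ∈ K, ∀ l, x l - y l ≤ 1 := by
    intro x hx y hy l
    have h1 : ‖(x - y) l‖ ≤ ‖x - y‖ := PiLp.norm_apply_le (x - y) l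
    have h2 : ‖x - y‖ = dist x y := (dist_eq_norm x y).symm
    have h3 : dist x y ≤ diam K := dist_le_diam_of_mem hbd hx hy
    have h4 : (x - y) l ≤ ‖(x - y) l‖ := le_abs_self _
    have h5 : (x - y) l = x l - y l := rfl
    linarith
  have hbb : ∀ l, BddBelow ((fun x : E k => x l) '' K) := by
    intro l
    obtain ⟨y, hy⟩ := hne
    refine ⟨y l - 1, ?_⟩
    rintro _ ⟨x, hx, rfl⟩
    have := hdist y hy x hx l
    show y l - 1 ≤ x l
    linarith
  have hsub : K ⊆ (@WithLp.ofLp 2 (Fin k → ℝ)) ⁻¹'
      (Set.pi univ fun l => Icc (m l) (m l + 1)) := by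
    intro x hx
    simp only [mem_preimage, mem_pi, mem_univ, true_imp_iff, mem_Icc]
    intro l
    constructor
    · exact csInf_le (hbb l) ⟨x, hx, rfl⟩
    · have h1 : x l - 1 ≤ m l := by
        refine le_csInf (hne.image _) ?_
        rintro _ ⟨y, hy, rfl⟩
        have := hdist x hx y hy l
        show x l - 1 ≤ y l
        linarith
      have h2 : x l ≤ m l + 1 := by linarith
      exact h2
  have hv : volume ((@WithLp.ofLp 2 (Fin k → ℝ)) ⁻¹'
      (Set.pi univ fun l => Icc (m l) (m l + 1))) = 1 := by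
    rw [(PiLp.volume_preserving_ofLp (Fin k)).measure_preimage
      (MeasurableSet.univ_pi fun _ => measurableSet_Icc).nullMeasurableSet, volume_pi_pi]
    simp [Real.volume_Icc]
  have h1 : volume K ≤ 1 := (measure_mono hsub).trans hv.le
  rw [measureReal_def]
  exact ENNReal.toReal_le_of_le_ofReal zero_le_one (by simpa using h1)

end Pool.Agent.Potatoes.LV
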