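import Pool.Agent.Work.MP_72041b_co.LV.Stmts

set_option autoImplicit false

namespace Pool.Agent.Potatoes.LV

open MeasureTheory Set Metric
open scoped RealInnerProductSpace Pointwise

theorem pr_fG (h : S_Grp) : S_fG := by
  intro k N v b hk hN hv hb hbv
  obtain ⟨n, rfl⟩ : ∃ n, k = n + 1 := ⟨k - 1, by omega⟩
  have hN0 : (0 : ℝ) < N := by
    have : 0 < N := by omega
    exact_mod_cast this
  have hv0 : 0 < v := by linarith
  obtain ⟨C, hC, hW⟩ := claimLarge claimStd claimBox_all claimBins_all n (by omega)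
  have hne : {c : ℝ | 0 < c ∧ Works (n + 1) 1 v c}.Nonempty :=
    ⟨C * (1 + v ^ (1 / ((n : ℝ) + 1))), by positivity, hW v hv0⟩
  have key : ∀ c ∈ {c : ℝ | 0 < c ∧ Works (n + 1) 1 v c}, f (n + 1) 1 b / N ≤ c := by
    rintro c ⟨hc, hcW⟩
    rw [div_le_iff₀ hN0]
    refine le_of_forall_pos_le_add fun ε hε => ?_
    have hεN : 0 < ε / N := div_pos hε hN0
    have h1 : Works (n + 1) 1 b (N * (c + ε / N)) :=
      h (n + 1) N v c (c + ε / N) b (by omega) hN hv hc (by linarith) hb hbv hcW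
    have h2 : f (n + 1) 1 b ≤ N * (c + ε / N) := by
      refine csInf_le ⟨0, ?_⟩ ⟨by positivity, h1⟩
      rintro x ⟨hx, _⟩
      exact hx.le
    have h3 : (N : ℝ) * (c + ε / N) = c * N + ε := by
      field_simp
    linarith
  have h4 : f (n + 1) 1 b / N ≤ f (n + 1) 1 v := le_csInf hne key
  rw [div_le_iff₀ hN0] at h4
  linarith

end Pool.Agent.Potatoes.LV
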