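import Pool.Agent.Work.MP_72041b_co.LV.Stmts

set_option autoImplicit false

namespace Pool.Agent.Potatoes.LV

open MeasureTheory Set Metric
open scoped RealInnerProductSpace Pointwise

/-- scaling -/
theorem pr_fS : S_fS := by
  intro k a b hk ha hb
  have hk0 : 0 < k := by omega
  have hS : {c : ℝ | 0 < c ∧ Works k a b c} = a • {c : ℝ | 0 < c ∧ Works k 1 (b / a ^ k) c} := by
    ext c
    rw [Set.mem_smul_set]
    constructor
    · rintro ⟨h1, h2⟩
      refine ⟨c / a, ⟨by positivity,
        (MainAAux.works_iff claimScale k a b c hk0 ha hb h1).1 h2⟩, ?_⟩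
      rw [smul_eq_mul]
      field_simp
    · rintro ⟨y, ⟨h1, h2⟩, rfl⟩
      rw [smul_eq_mul]
      have h3 : 0 < a * y := by positivity
      refine ⟨h3, ?_⟩
      rw [MainAAux.works_iff claimScale k a b (a * y) hk0 ha hb h3]
      have h4 : a * y / a = y := by field_simp
      rw [h4]
      exact h2
  unfold f
  rw [hS, Real.sInf_smul_of_nonneg ha.le, smul_eq_mul]

end Pool.Agent.Potatoes.LV
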