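import Pool.Agent.Work.MP_72041b_co.LV.I_Bli
import Pool.Agent.Work.MP_72041b_co.LV.I_BliI
import Pool.Agent.Work.MP_72041b_co.LV.I_Bx
import Pool.Agent.Work.MP_72041b_co.LV.I_Cls
import Pool.Agent.Work.MP_72041b_co.LV.I_Grd
import Pool.Agent.Work.MP_72041b_co.LV.I_Grp
import Pool.Agent.Work.MP_72041b_co.LV.I_Lim
import Pool.Agent.Work.MP_72041b_co.LV.I_LowB
import Pool.Agent.Work.MP_72041b_co.LV.I_Main
import Pool.Agent.Work.MP_72041b_co.LV.I_Nrm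
import Pool.Agent.Work.MP_72041b_co.LV.I_Pck
import Pool.Agent.Work.MP_72041b_co.LV.I_Rz
import Pool.Agent.Work.MP_72041b_co.LV.I_Sym
import Pool.Agent.Work.MP_72041b_co.LV.I_Up2
import Pool.Agent.Work.MP_72041b_co.LV.I_Up4
import Pool.Agent.Work.MP_72041b_co.LV.I_Vol1
import Pool.Agent.Work.MP_72041b_co.LV.I_fG
import Pool.Agent.Work.MP_72041b_co.LV.I_fS

set_option autoImplicit false

/-!
# MP_72041b_co, block LV: assembly
-/

namespace Pool.Agent.Potatoes.LV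

theorem all_Up4 : S_Up4 := pr_Up4 pr_Nrm (pr_Pck (pr_Cls pr_Rz pr_Sym) pr_Grd pr_Bx)

theorem all_Main : S_Main := pr_Main pr_fS (pr_fG pr_Grp) pr_Lim (pr_LowB pr_Vol1 (pr_Bli pr_BliI))
  all_Up4 (pr_Up2 pr_Bx)

end Pool.Agent.Potatoes.LV
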