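import Pool.Agent.Work.MP_72041b_co.LV.Stmts

set_option autoImplicit false

/-!
# MP_72041b_co, block LV: Blichfeldt's inequality
-/

namespace Pool.Agent.Potatoes.LV

open MeasureTheory Set Metric
open scoped RealInnerProductSpace Pointwise

namespace AuxBli

/-- Blichfeldt's function -/
noncomputable def phi {k : ℕ} (x : E k) : ℝ := max (1 - 2 * ‖x‖ ^ 2) 0

theorem phi_nonneg {k : ℕ} (x : E k) : 0 ≤ phi x := le_max_right _ _

theorem phi_cont (k : ℕ) : Continuous (phi : E k → ℝ) := by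
  unfold phi
  fun_prop

theorem phi_zero {k : ℕ} {x : E k} (h : √2 / 2 ≤ ‖x‖) : phi x = 0 := by
  unfold phi
  rw [max_eq_right]
  have h2 : (√2 / 2) ^ 2 ≤ ‖x‖ ^ 2 := by gcongr
  have h3 : √2 ^ 2 = 2 := Real.sq_sqrt (by norm_num)
  nlinarith

theorem half_sqrt : √2 / 2 ≤ (1 : ℝ) := by
  have h3 : √2 ^ 2 = 2 := Real.sq_sqrt (by norm_num)
  have h4 : 0 ≤ √2 := Real.sqrt_nonneg 2
  nlinarith

theorem phi_int (k : ℕ) : Integrable (phi : E k → ℝ) := by
  refine (phi_cont k).integrable_of_hasCompactSupport ?_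
  refine HasCompactSupport.of_support_subset_isCompact (isCompact_closedBall (0 : E k) 1) ?_
  intro x hx
  by_contra h
  apply hx
  apply phi_zero
  have h1 : 1 < ‖x‖ := by simpa [mem_closedBall] using h
  exact half_sqrt.trans h1.le

theorem sum_sq {V : Type} [NormedAddCommGroup V] [InnerProductSpace ℝ V] {ι : Type}
    (T : Finset ι) (v : ι → V) :
    ∑ i ∈ T, ∑ j ∈ T, ‖v i - v j‖ ^ 2 =
      2 * T.card * ∑ i ∈ T, ‖v i‖ ^ 2 - 2 * ‖∑ i ∈ T, v i‖ ^ 2 := by
  have h1 : ‖∑ i ∈ T, v i‖ ^ 2 = ∑ i ∈ T, ∑ j ∈ T, ⟪v i, v j⟫ := by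
    rw [← real_inner_self_eq_norm_sq, sum_inner]
    exact Finset.sum_congr rfl fun i _ => inner_sum _ _ _
  have h2 : ∀ i j, ‖v i - v j‖ ^ 2 = ‖v i‖ ^ 2 - 2 * ⟪v i, v j⟫ + ‖v j‖ ^ 2 :=
    fun i j => norm_sub_sq_real _ _
  rw [h1]
  simp only [h2, Finset.sum_add_distrib, Finset.sum_sub_distrib, Finset.sum_const, nsmul_eq_mul,
    ← Finset.mul_sum]
  ring

theorem sum_dist {V : Type} [NormedAddCommGroup V] [InnerProductSpace ℝ V] {ι : Type}
    (T : Finset ι) (v : ι → V) (h : ∀ i j, i ≠ j → 1 ≤ ‖v i - v j‖) :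
    ∑ i ∈ T, (1 - 2 * ‖v i‖ ^ 2) ≤ 1 := by
  classical
  rcases T.eq_empty_or_nonempty with rfl | hT
  · simp
  have hc : (1 : ℝ) ≤ T.card := by exact_mod_cast hT.card_pos
  have h1 : (T.card : ℝ) * (T.card - 1) ≤ ∑ i ∈ T, ∑ j ∈ T, ‖v i - v j‖ ^ 2 := by
    have h2 : ∀ i ∈ T, ((T.card : ℝ) - 1) ≤ ∑ j ∈ T, ‖v i - v j‖ ^ 2 := by
      intro i hi
      have h3 : ∑ j ∈ T.erase i, (1 : ℝ) ≤ ∑ j ∈ T, ‖v i - v j‖ ^ 2 := by
        rw [← Finset.add_sum_erase T _ hi]
        have h4 : ∑ j ∈ T.erase i, (1 : ℝ) ≤ ∑ j ∈ T.erase i, ‖v i - v j‖ ^ 2 := by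
          refine Finset.sum_le_sum fun j hj => ?_
          have := h i j (Finset.ne_of_mem_erase hj).symm
          nlinarith
        have h5 : 0 ≤ ‖v i - v i‖ ^ 2 := by positivity
        linarith
      rw [Finset.sum_const, Finset.card_erase_of_mem hi, nsmul_eq_mul, mul_one,
        Nat.cast_sub (Nat.succ_le_of_lt hT.card_pos), Nat.cast_one] at h3
      exact h3
    calc (T.card : ℝ) * (T.card - 1) = ∑ i ∈ T, ((T.card : ℝ) - 1) := by
          rw [Finset.sum_const, nsmul_eq_mul]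
      _ ≤ _ := Finset.sum_le_sum h2
  rw [sum_sq] at h1
  have h6 : 0 ≤ ‖∑ i ∈ T, v i‖ ^ 2 := by positivity
  rw [Finset.sum_sub_distrib, Finset.sum_const, nsmul_eq_mul, mul_one, ← Finset.mul_sum]
  have h7 : (T.card : ℝ) * (T.card - 1) ≤ T.card * (2 * ∑ i ∈ T, ‖v i‖ ^ 2) := by
    linarith
  have h8 := le_of_mul_le_mul_left h7 (by linarith)
  linarith

theorem sum_phi {k N : ℕ} (c : Fin N → E k) (h : ∀ i j, i ≠ j → 1 ≤ dist (c i) (c j))
    (x : E k) : ∑ i, phi (x - c i) ≤ 1 := by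
  classical
  have h1 : ∑ i, phi (x - c i) =
      ∑ i ∈ Finset.univ.filter (fun i => 0 ≤ 1 - 2 * ‖x - c i‖ ^ 2),
        (1 - 2 * ‖x - c i‖ ^ 2) := by
    rw [Finset.sum_filter]
    refine Finset.sum_congr rfl fun i _ => ?_
    unfold phi
    split_ifs with h2
    · exact max_eq_left h2
    · exact max_eq_right (not_le.1 h2).le
  rw [h1]
  refine sum_dist _ (fun i => x - c i) fun i j hij => ?_
  have := h j i hij.symm
  rw [dist_eq_norm] at this
  simpa using this

theorem phi_support {k N : ℕ} {s : ℝ} (c : Fin N → E k) (h : ∀ i l, |c i l| ≤ s / 2)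
    {x : E k} (hx : x ∉ stdCube k (s + √2)) : ∑ i, phi (x - c i) = 0 := by
  refine Finset.sum_eq_zero fun i _ => phi_zero ?_
  by_contra hlt
  apply hx
  intro l
  have h1 : |x l - c i l| ≤ ‖x - c i‖ := by
    have := PiLp.norm_apply_le (x - c i) l
    simpa using this
  have h2 : |x l| ≤ |x l - c i l| + |c i l| := by
    have := abs_add_le (x l - c i l) (c i l)
    simpa using this
  have h3 := h i l
  have h4 : ‖x - c i‖ < √2 / 2 := not_le.1 hlt
  linarith

end AuxBli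

open AuxBli in
theorem pr_Bli (h : S_BliI) : S_Bli := by
  intro k N s c hk hs hc hd
  have hI := h k hk
  have h0 : 0 ≤ s + √2 := add_nonneg hs (Real.sqrt_nonneg 2)
  have hm : MeasurableSet (stdCube k (s + √2)) := (Vol.isClosed_stdCube k _).measurableSet
  have hv : volume (stdCube k (s + √2)) = ENNReal.ofReal ((s + √2) ^ k) :=
    Vol.volume_stdCube k h0
  rw [← hI]
  have h1 : (N : ℝ) * ∫ x : E k, phi x = ∫ x : E k, ∑ i, phi (x - c i) := by
    rw [integral_finsetSum _ fun i _ => (phi_int k).comp_sub_right (c i)]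
    simp_rw [integral_sub_right_eq_self (fun x => phi x)]
    simp
  have h2 : ∫ x : E k, ∑ i, phi (x - c i) ≤
      ∫ x : E k, (stdCube k (s + √2)).indicator (fun _ => (1 : ℝ)) x := by
    refine integral_mono ?_ ?_ fun x => ?_
    · exact integrable_finsetSum _ fun i _ => (phi_int k).comp_sub_right (c i)
    · refine (integrable_indicator_iff hm).2 ?_
      exact integrableOn_const (by rw [hv]; exact ENNReal.ofReal_ne_top)
    · by_cases hx : x ∈ stdCube k (s + √2)
      · rw [indicator_of_mem hx]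
        exact sum_phi c hd x
      · rw [indicator_of_notMem hx]
        exact (phi_support c hc hx).le
  have h3 : ∫ x : E k, (stdCube k (s + √2)).indicator (fun _ => (1 : ℝ)) x = (s + √2) ^ k := by
    rw [integral_indicator hm, setIntegral_const, smul_eq_mul, mul_one, Measure.real, hv,
      ENNReal.toReal_ofReal (by positivity)]
  have h4 : (N : ℝ) * ∫ x : E k, phi x ≤ (s + √2) ^ k := by
    rw [h1]
    exact h2.trans h3.le
  exact h4

end Pool.Agent.Potatoes.LV
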