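import Pool.Agent.Work.MP_72041b_co.LV.Stmts

set_option autoImplicit false

namespace Pool.Agent.Potatoes.LV

open MeasureTheory Set Metric
open scoped RealInnerProductSpace Pointwise

namespace AuxNrm

lemma exists_lin {k : ℕ} (lam : Fin k → ℝ) :
    ∃ D : E k →ₗ[ℝ] E k, (∀ x, D x = dil lam x) ∧ LinearMap.det D = ∏ l, lam l := by
  classical
  let b := (EuclideanSpace.basisFun (Fin k) ℝ).toBasis
  refine ⟨Matrix.toLin b b (Matrix.diagonal lam), ?_, ?_⟩
  · intro x
    ext i
    have h := congrFun (LinearMap.toMatrix_mulVec_repr b b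
      (Matrix.toLin b b (Matrix.diagonal lam)) x) i
    rw [LinearMap.toMatrix_toLin, Matrix.mulVec_diagonal] at h
    simpa [b, dil] using h.symm
  · rw [LinearMap.det_toLin, Matrix.det_diagonal]

lemma dil_dil {k : ℕ} (lam mu : Fin k → ℝ) (h : ∀ l, lam l * mu l = 1) (x : E k) :
    dil lam (dil mu x) = x := by
  ext i
  simp only [dil]
  rw [← mul_assoc, h, one_mul]

lemma body_dil {k : ℕ} (lam mu : Fin k → ℝ) (h : ∀ l, lam l * mu l = 1) {K : Set (E k)}
    (hK : IsBody K) : IsBody (dil lam '' K) ∧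
      volume.real (dil lam '' K) = |∏ l, lam l| * volume.real K := by
  obtain ⟨D, hD, hdet⟩ := exists_lin lam
  have hfun : dil lam = D := by
    funext x
    exact (hD x).symm
  have hcont : Continuous D := D.continuous_of_finiteDimensional
  have hsurj : Function.Surjective D := by
    intro x
    refine ⟨dil mu x, ?_⟩
    rw [hD]
    exact dil_dil lam mu h x
  have hopen : IsOpenMap D := D.isOpenMap_of_finiteDimensional hsurj
  rw [hfun]
  refine ⟨⟨hK.compact.image hcont, hK.convex.linear_image D, ?_⟩, ?_⟩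
  · exact (hK.inner.image D).mono (hopen.image_interior_subset K)
  · rw [Measure.real, Measure.addHaar_image_linearMap, ENNReal.toReal_mul,
      ENNReal.toReal_ofReal (abs_nonneg _), hdet]
    rfl

lemma body_isom {k : ℕ} (u : OrthonormalBasis (Fin k) ℝ (E k)) (p : Fin k → ℝ) :
    ∃ g : E k ≃ᵢ E k, (∀ x l, g x l = ⟪u l, x⟫ - p l) ∧ ∀ K : Set (E k), IsBody K →
      IsBody (g '' K) ∧ volume.real (g '' K) = volume.real K := by
  refine ⟨u.repr.toIsometryEquiv.trans (IsometryEquiv.subRight (WithLp.toLp 2 p)), ?_, ?_⟩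
  · intro x l
    simp [OrthonormalBasis.repr_apply_apply]
  · intro K hK
    set g := u.repr.toIsometryEquiv.trans (IsometryEquiv.subRight (WithLp.toLp 2 p)) with hg
    refine ⟨⟨hK.compact.image g.continuous, ?_, ?_⟩, ?_⟩
    · have := hK.convex.affine_image g.toRealAffineIsometryEquiv.toAffineEquiv.toAffineMap
      simpa using this
    · exact (hK.inner.image g).mono (g.toHomeomorph.isOpenMap.image_interior_subset K)
    · have h1 : g '' K = (fun y => y - WithLp.toLp 2 p) '' (u.repr '' K) := by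
        rw [Set.image_image]
        rfl
      rw [h1, Measure.real, Measure.real]
      congr 1
      have h2 : (fun y : E k => y - WithLp.toLp 2 p) = (fun y => y + -WithLp.toLp 2 p) := by
        funext y
        rw [sub_eq_add_neg]
      rw [h2, Set.image_add_right, measure_preimage_add_right]
      have h3 := u.measurePreserving_repr
      have h4 : (u.repr '' K : Set (E k)) = u.repr.symm ⁻¹' K := by
        ext y
        constructor
        · rintro ⟨x, hx, rfl⟩
          simpa using hx
        · intro hy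
          exact ⟨u.repr.symm y, hy, by simp⟩
      rw [h4]
      exact u.measurePreserving_repr_symm.measure_preimage
        hK.compact.measurableSet.nullMeasurableSet

end AuxNrm

theorem pr_Nrm : S_Nrm := by
  intro k hk
  obtain ⟨B, hB, hbox⟩ := claimBox_all k hk
  refine ⟨1 / (2 ^ k * B), by positivity, ?_⟩
  intro K hK hd
  obtain ⟨u, p, w, -, hw, hin, hprod⟩ := hbox K hK hd
  have hq : ∀ l, ∃ q : ℕ, (1 / 2 : ℝ) ^ q < w l ∧ w l ≤ 2 * (1 / 2 : ℝ) ^ q := by
    intro l
    obtain ⟨n, h1, h2⟩ := exists_nat_pow_near_of_lt_one (hw l).1 (hw l).2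
      (by norm_num : (0 : ℝ) < 1 / 2) (by norm_num)
    refine ⟨n + 1, h1, ?_⟩
    calc w l ≤ (1 / 2 : ℝ) ^ n := h2
      _ = 2 * (1 / 2 : ℝ) ^ (n + 1) := by
        rw [pow_succ]
        ring
  choose q hq1 hq2 using hq
  obtain ⟨g, hg, hgb⟩ := AuxNrm.body_isom u p
  obtain ⟨hgK, hgv⟩ := hgb K hK
  set lam : Fin k → ℝ := fun l => 2 * (1 / 2 : ℝ) ^ q l with hlam
  have hlpos : ∀ l, 0 < lam l := fun l => by
    simp only [hlam]
    positivity
  have hinv1 : ∀ l, (fun l => (lam l)⁻¹) l * lam l = 1 := fun l => inv_mul_cancel₀ (hlpos l).ne'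
  have hinv2 : ∀ l, lam l * (fun l => (lam l)⁻¹) l = 1 := fun l => mul_inv_cancel₀ (hlpos l).ne'
  obtain ⟨hHb, hHv⟩ := AuxNrm.body_dil (fun l => (lam l)⁻¹) lam hinv1 hgK
  have hpp : 0 < ∏ l, lam l := Finset.prod_pos fun l _ => hlpos l
  have hHv' : volume.real (dil (fun l => (lam l)⁻¹) '' (g '' K)) =
      (∏ l, lam l)⁻¹ * volume.real K := by
    rw [hHv, hgv, Finset.prod_inv_distrib, abs_of_pos (by positivity)]
  refine ⟨q, dil (fun l => (lam l)⁻¹) '' (g '' K), g, hHb, ?_, ?_, ?_, ?_⟩
  · rintro _ ⟨_, ⟨x, hx, rfl⟩, rfl⟩ i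
    have h1 := hin x hx i
    have h2 := hq2 i
    have h3 := hlpos i
    have h4 : dil (fun l => (lam l)⁻¹) (g x) i = (lam i)⁻¹ * (⟪u i, x⟫ - p i) := by
      rw [← hg x i]
      rfl
    rw [h4]
    constructor
    · exact mul_nonneg (inv_nonneg.2 h3.le) (by linarith [h1.1])
    · rw [inv_mul_le_iff₀ h3, mul_one]
      have : w i ≤ lam i := h2
      linarith [h1.2]
  · rw [hHv']
    have h1 : ∏ l, lam l ≤ 2 ^ k * ∏ l, w l := by
      have : (2 : ℝ) ^ k = ∏ _l : Fin k, (2 : ℝ) := by simp
      rw [this, ← Finset.prod_mul_distrib]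
      apply Finset.prod_le_prod
      · intro l _
        exact (hlpos l).le
      · intro l _
        simp only [hlam]
        linarith [hq1 l]
    have h2 : ∏ l, lam l ≤ 2 ^ k * (B * volume.real K) :=
      h1.trans (mul_le_mul_of_nonneg_left hprod (by positivity))
    rw [inv_mul_eq_div, div_le_div_iff₀ (by positivity) hpp]
    linarith
  · rw [hHv']
    rw [← mul_assoc, mul_inv_cancel₀ hpp.ne', one_mul]
  · rw [Set.image_image]
    conv_lhs => rw [← Set.image_id (g '' K)]
    apply Set.image_congr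
    intro x _
    exact (AuxNrm.dil_dil lam _ hinv2 x).symm

end Pool.Agent.Potatoes.LV
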