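import Pool.Agent.Work.MP_72041b_co.AllB

set_option autoImplicit false

/-!
# MP_72041b_co, block LV: large total volume

`f k a b / b ^ (1 / k)` tends to a limit `L k` as `b / a ^ k → ∞`, and
`√2 * (2 / (k + 2)) ^ (1 / k) ≤ L k / √k ≤ 4`. See `LV/PROOF.md`.
-/

namespace Pool.Agent.Potatoes.LV

open MeasureTheory Set Metric
open scoped RealInnerProductSpace Pointwise

/-- the cube `[0,1]^k` -/
def ubox (k : ℕ) : Set (E k) := {x | ∀ i, 0 ≤ x i ∧ x i ≤ 1}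

/-- multiplication of the coordinates by `lam i` -/
def dil {k : ℕ} (lam : Fin k → ℝ) (x : E k) : E k := WithLp.toLp 2 fun i => lam i * x i

/-! ## The limit -/

/-- bodies of diameter at most one have volume at most one -/
def S_Vol1 : Prop := ∀ (k : ℕ) (K : Set (E k)), IsBody K → diam K ≤ 1 → volume.real K ≤ 1

/-- scaling -/
def S_fS : Prop := ∀ (k : ℕ) (a b : ℝ), 2 ≤ k → 0 < a → 0 < b →
  f k a b = a * f k 1 (b / a ^ k)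

/-- grouping -/
def S_Grp : Prop := ∀ (k N : ℕ) (v c c' b : ℝ), 0 < k → 1 ≤ N → 1 < v → 0 < c → c < c' →
  0 < b → b ≤ (v - 1) * (N : ℝ) ^ k → Works k 1 v c → Works k 1 b (N * c')

/-- grouping, for the function -/
def S_fG : Prop := ∀ (k N : ℕ) (v b : ℝ), 2 ≤ k → 1 ≤ N → 1 < v → 0 < b →
  b ≤ (v - 1) * (N : ℝ) ^ k → f k 1 b ≤ N * f k 1 v

/-- existence of the limit, real analysis -/
def S_Lim : Prop := ∀ (k : ℕ) (F : ℝ → ℝ) (α : ℝ), 2 ≤ k → 0 < α →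
  (∀ b : ℝ, 0 < b → α * b ^ (1 / (k : ℝ)) ≤ F b) →
  (∀ (v b : ℝ) (N : ℕ), 1 < v → 0 < b → 1 ≤ N → b ≤ (v - 1) * (N : ℝ) ^ k → F b ≤ N * F v) →
  ∃ L : ℝ, (∀ ε : ℝ, 0 < ε → ∃ B : ℝ, 0 < B ∧ ∀ b : ℝ, B ≤ b →
      |F b - L * b ^ (1 / (k : ℝ))| ≤ ε * b ^ (1 / (k : ℝ))) ∧
    ∀ v : ℝ, 1 < v → L * (v - 1) ^ (1 / (k : ℝ)) ≤ F v

/-! ## Lower bound: balls (Blichfeldt) -/

/-- the integral of Blichfeldt's function -/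
def S_BliI : Prop := ∀ k : ℕ, 0 < k → ∫ x : E k, max (1 - 2 * ‖x‖ ^ 2) 0 =
  volume.real (ball (0 : E k) (1 / 2)) * (√2 ^ k * (2 / ((k : ℝ) + 2)))

/-- Blichfeldt's inequality -/
def S_Bli : Prop := ∀ (k N : ℕ) (s : ℝ) (c : Fin N → E k), 0 < k → 0 ≤ s →
  (∀ i l, |c i l| ≤ s / 2) → (∀ i j, i ≠ j → 1 ≤ dist (c i) (c j)) →
  (N : ℝ) * (volume.real (ball (0 : E k) (1 / 2)) * (√2 ^ k * (2 / ((k : ℝ) + 2)))) ≤
    (s + √2) ^ k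

/-- the lower bound -/
def S_LowB : Prop := ∀ (k : ℕ) (t c : ℝ), 2 ≤ k → 1 < t → 0 < c → Works k 1 t c →
  (t - 1) * (√2 ^ k * (2 / ((k : ℝ) + 2))) ≤ (c / √k + √2) ^ k

/-! ## Upper bound: greedy packing in thin boxes -/

/-- difference bodies (Ruzsa's triangle inequality) -/
def S_Rz : Prop := ∀ (k : ℕ) (K : Set (E k)), IsBody K →
  volume.real (K - K) ≤ 4 ^ k * volume.real K

/-- symmetric convex sets of large volume contain a ball -/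
def S_Sym : Prop := ∀ (k : ℕ) (c : ℝ), 0 < c → ∃ r : ℝ, 0 < r ∧ ∀ D : Set (E k), IsCompact D →
  Convex ℝ D → (∀ x ∈ D, -x ∈ D) → (∀ x ∈ D, ∀ i, |x i| ≤ 1) → c ≤ volume.real D →
  closedBall 0 r ⊆ D

/-- finitely many classes of shapes -/
def S_Cls : Prop := ∀ (k : ℕ) (c η : ℝ), 0 < c → 0 < η →
  ∃ (m : ℕ) (lab : Set (E k) → Fin m), ∀ K L : Set (E k), IsBody K → IsBody L →
    K ⊆ ubox k → L ⊆ ubox k → c ≤ volume.real K → c ≤ volume.real L → lab K = lab L →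
    volume.real (K - L) ≤ (1 + η) * 4 ^ k * volume.real K

/-- greedy packing of bodies in cubes of side `M` -/
def S_Grd : Prop := ∀ (k : ℕ) (M Q : ℝ), 0 < k → 1 < M → 0 < Q →
  ∀ (ι : Type) [Countable ι] (K : ι → Set (E k)), (∀ i, IsBody (K i)) →
  (∀ i, K i ⊆ ubox k) → (∀ i j, volume.real (K i - K j) ≤ Q * volume.real (K i)) →
  (Summable fun i => volume.real (K i)) →
  ∃ (pal : ι → ℕ) (pos : ι → E k), (∀ i l, 0 ≤ pos i l ∧ pos i l ≤ M - 1) ∧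
    (∀ i j, i ≠ j → pal i = pal j →
      Disjoint ((fun x => pos i + x) '' K i) ((fun x => pos j + x) '' K j)) ∧
    ∀ i, (pal i : ℝ) * (M - 1) ^ k ≤ Q * ∑' j, volume.real (K j)

/-- boxes with edges in `{1, ρ, ρ², …}` and total volume at most `(1 - ε) s ^ m` are packed in the
cube with side `s`, for large `s` -/
def S_Bx : Prop := ∀ (m : ℕ) (ρ ε : ℝ), 1 ≤ m → 0 < ρ → ρ < 1 → 0 < ε →
  ∃ s₀ : ℝ, 1 ≤ s₀ ∧ ∀ s : ℝ, s₀ ≤ s → ∀ (ι : Type) [Countable ι] (p : ι → Fin m → ℕ),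
  (Summable fun i => ∏ l, ρ ^ p i l) → ∑' i, ∏ l, ρ ^ p i l ≤ (1 - ε) * s ^ m →
  ∃ pos : ι → Fin m → ℝ, (∀ i l, 0 ≤ pos i l ∧ pos i l + ρ ^ p i l ≤ s) ∧
    ∀ i i', i ≠ i' → ∃ l, pos i l + ρ ^ p i l ≤ pos i' l ∨ pos i' l + ρ ^ p i' l ≤ pos i l

/-- normalisation of a body -/
def S_Nrm : Prop := ∀ k : ℕ, 0 < k → ∃ c : ℝ, 0 < c ∧ ∀ K : Set (E k), IsBody K →
  diam K ≤ 1 → ∃ (q : Fin k → ℕ) (H : Set (E k)) (g : E k ≃ᵢ E k), IsBody H ∧ H ⊆ ubox k ∧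
    c ≤ volume.real H ∧ volume.real K = (∏ l, 2 * (1 / 2 : ℝ) ^ q l) * volume.real H ∧
    g '' K = dil (fun l => 2 * (1 / 2 : ℝ) ^ q l) '' H

/-- packing of normalised bodies by translations -/
def S_Pck : Prop := ∀ (k : ℕ) (c θ : ℝ), 0 < k → 0 < c → 4 < θ → ∃ t₀ : ℝ, 0 < t₀ ∧
  ∀ t : ℝ, t₀ ≤ t → ∀ (ι : Type) [Countable ι] (q : ι → Fin k → ℕ) (H : ι → Set (E k)),
  (∀ i, IsBody (H i)) → (∀ i, H i ⊆ ubox k) → (∀ i, c ≤ volume.real (H i)) →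
  (Summable fun i => (∏ l, 2 * (1 / 2 : ℝ) ^ q i l) * volume.real (H i)) →
  ∑' i, (∏ l, 2 * (1 / 2 : ℝ) ^ q i l) * volume.real (H i) ≤ t →
  ∃ τ : ι → E k,
    (∀ i, ∀ x ∈ H i, ∀ l, 0 ≤ τ i l + 2 * (1 / 2 : ℝ) ^ q i l * x l ∧
      τ i l + 2 * (1 / 2 : ℝ) ^ q i l * x l ≤ θ * t ^ (1 / (k : ℝ))) ∧
    ∀ i j, i ≠ j →
      Disjoint ((fun x => τ i + dil (fun l => 2 * (1 / 2 : ℝ) ^ q i l) x) '' H i)
        ((fun x => τ j + dil (fun l => 2 * (1 / 2 : ℝ) ^ q j l) x) '' H j)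

/-- the upper bound in all dimensions -/
def S_Up4 : Prop := ∀ (k : ℕ) (θ : ℝ), 2 ≤ k → 4 < θ → ∃ t₀ : ℝ, 0 < t₀ ∧
  ∀ t : ℝ, t₀ ≤ t → Works k 1 t (√k * (θ * t ^ (1 / (k : ℝ))))

/-- the upper bound in the plane -/
def S_Up2 : Prop := ∀ θ : ℝ, 2 < θ → ∃ t₀ : ℝ, 0 < t₀ ∧
  ∀ t : ℝ, t₀ ≤ t → Works 2 1 t (θ * t ^ (1 / 2 : ℝ))

/-! ## The theorem -/

/-- the theorem -/
def S_Main : Prop := ∃ L : ℕ → ℝ, L 2 ≤ 2 ∧ ∀ k : ℕ, 2 ≤ k →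
  (∀ ε : ℝ, 0 < ε → ∃ B : ℝ, 0 < B ∧ ∀ a b : ℝ, 0 < a → B * a ^ k ≤ b →
    |f k a b - L k * b ^ (1 / (k : ℝ))| ≤ ε * b ^ (1 / (k : ℝ))) ∧
  (∀ a b : ℝ, 0 < a → a ^ k ≤ b → L k * (b - a ^ k) ^ (1 / (k : ℝ)) ≤ f k a b) ∧
  √k * (√2 * (2 / ((k : ℝ) + 2)) ^ (1 / (k : ℝ))) ≤ L k ∧ L k ≤ 4 * √k

end Pool.Agent.Potatoes.LV
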